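import Pool.Agent.Q80.FH.Ver

/-!
Projective schemes with a finite morphism to a projective space: integrality of the coordinates.
-/

set_option autoImplicit false

namespace Pool.Agent.Q80.FH

open FF MvPolynomial Pool.Agent.W603.LV Pool.Agent.W603.PV Pool.Agent.W602.GT Pool.Agent.Y191

namespace FinCover

variable {k : Type} [Field k] {n r q : ℕ} (X : FinCover k n r)

/-- the weights -/
abbrev W : Fin (n + 1) ⊕ Fin r → ℕ := Sum.elim (fun _ => 1) X.wt

section

attribute [local instance] MvPolynomial.weightedGradedAlgebra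

theorem whc_mul {a b : MvPolynomial (Fin (n + 1) ⊕ Fin r) k} {t d : ℕ}
    (hb : b.IsWeightedHomogeneous X.W d) :
    weightedHomogeneousComponent X.W (t + d) (a * b) =
      weightedHomogeneousComponent X.W t a * b := by
  rw [← weightedDecomposition.decompose'_apply, ← weightedDecomposition.decompose'_apply]
  exact DirectSum.coe_decompose_mul_add_of_right_mem
    (weightedHomogeneousSubmodule k X.W) hb

theorem whc_mem {F : MvPolynomial (Fin (n + 1) ⊕ Fin r) k}
    (hF : F ∈ Ideal.span (Set.range X.eqs)) (d : ℕ) :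
    weightedHomogeneousComponent X.W d F ∈ Ideal.span (Set.range X.eqs) := by
  refine weightedHomogeneousComponent_mem_of_mem k X.W ?_ hF d
  refine Ideal.homogeneous_span _ _ ?_
  rintro _ ⟨t, rfl⟩
  exact X.hom t

end

theorem rel [IsAlgClosed k] : ∃ (E : ℕ) (g : Fin r → Fin (n + 1) →
      MvPolynomial (Fin (n + 1) ⊕ Fin r) k), 0 < E ∧
      (∀ i j, (g i j).IsWeightedHomogeneous X.W (E * X.wt i - 1)) ∧
      ∀ (M : Type) [Field M] [Algebra k M] (y : Fin (n + 1) → M) (z : Fin r → M),
        (∀ t, aeval (Sum.elim y z) (X.eqs t) = 0) → ∀ i,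
        z i ^ E = ∑ j, aeval (Sum.elim y z) (g i j) * y j := by
  classical
  obtain ⟨J, hJ⟩ : ∃ J, J = Ideal.span (Set.range X.eqs) ⊔
    Ideal.span (Set.range fun j : Fin (n + 1) =>
      (MvPolynomial.X (Sum.inl j) : MvPolynomial (Fin (n + 1) ⊕ Fin r) k)) := ⟨_, rfl⟩
  have h1 : ∀ i, (MvPolynomial.X (Sum.inr i) : MvPolynomial (Fin (n + 1) ⊕ Fin r) k) ∈
      J.radical := by
    intro i
    rw [← vanishingIdeal_zeroLocus_eq_radical (K := k), mem_vanishingIdeal_iff]
    intro x hx
    rw [mem_zeroLocus_iff] at hx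
    rw [aeval_X]
    have hx0 : ∀ j, x (Sum.inl j) = 0 := by
      intro j
      have := hx (MvPolynomial.X (Sum.inl j)) (by
        rw [hJ]
        exact Ideal.mem_sup_right (Ideal.subset_span ⟨j, rfl⟩))
      rwa [aeval_X] at this
    have hx1 : x = Sum.elim (0 : Fin (n + 1) → k) (fun i => x (Sum.inr i)) := by
      funext s
      rcases s with s | s
      · exact hx0 s
      · rfl
    have h2 := X.free (fun i => x (Sum.inr i)) fun t => by
      rw [← hx1]
      have := hx (X.eqs t) (by
        rw [hJ]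
        exact Ideal.mem_sup_left (Ideal.subset_span ⟨t, rfl⟩))
      rwa [aeval_def, Algebra.algebraMap_self] at this
    exact congrFun h2 i
  choose E0 hE0 using h1
  obtain ⟨E, hE⟩ : ∃ E, E = ∑ i, E0 i + 1 := ⟨_, rfl⟩
  have h2 : ∀ i, ∃ g : Fin (n + 1) → MvPolynomial (Fin (n + 1) ⊕ Fin r) k,
      (∀ j, (g j).IsWeightedHomogeneous X.W (E * X.wt i - 1)) ∧
      MvPolynomial.X (Sum.inr i) ^ E - ∑ j, g j * MvPolynomial.X (Sum.inl j) ∈
        Ideal.span (Set.range X.eqs) := by
    intro i
    have h3 : MvPolynomial.X (Sum.inr i) ^ E ∈ J := by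
      have h4 : E0 i ≤ ∑ i, E0 i :=
        Finset.single_le_sum (f := E0) (fun _ _ => Nat.zero_le _) (Finset.mem_univ i)
      have h5 : E = E0 i + (E - E0 i) := by omega
      rw [h5, pow_add]
      exact Ideal.mul_mem_right _ _ (hE0 i)
    rw [hJ, Submodule.mem_sup] at h3
    obtain ⟨F, hF, G, hG, hFG⟩ := h3
    obtain ⟨c, hc⟩ := Ideal.mem_span_range_iff_exists_fun.1 hG
    refine ⟨fun j => weightedHomogeneousComponent X.W (E * X.wt i - 1) (c j),
      fun j => weightedHomogeneousComponent_isWeightedHomogeneous _ _, ?_⟩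
    have hpos : 0 < E * X.wt i := Nat.mul_pos (by omega) (X.wt_pos i)
    have h6 := congrArg (weightedHomogeneousComponent X.W (E * X.wt i - 1 + 1)) hFG
    rw [← hc, map_add, map_sum] at h6
    have h7 : weightedHomogeneousComponent X.W (E * X.wt i - 1 + 1)
        (MvPolynomial.X (Sum.inr i) ^ E : MvPolynomial (Fin (n + 1) ⊕ Fin r) k) =
        MvPolynomial.X (Sum.inr i) ^ E := by
      have h8 : (MvPolynomial.X (Sum.inr i) ^ E :
          MvPolynomial (Fin (n + 1) ⊕ Fin r) k).IsWeightedHomogeneous X.W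
          (E * X.wt i - 1 + 1) := by
        have h9 := (isWeightedHomogeneous_X k X.W (Sum.inr i)).pow E
        rw [Nat.sub_add_cancel hpos]
        simpa using h9
      exact h8.weightedHomogeneousComponent_same
    rw [h7] at h6
    have h10 : ∀ j : Fin (n + 1), (MvPolynomial.X (Sum.inl j) :
        MvPolynomial (Fin (n + 1) ⊕ Fin r) k).IsWeightedHomogeneous X.W 1 := fun j =>
      isWeightedHomogeneous_X k X.W (Sum.inl j)
    simp only [X.whc_mul (h10 _)] at h6
    rw [← h6, add_sub_cancel_right]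
    exact X.whc_mem hF _
  choose g hg hgI using h2
  refine ⟨E, g, by omega, hg, fun M _ _ y z hx i => ?_⟩
  have hspan : ∀ F ∈ Ideal.span (Set.range X.eqs), aeval (Sum.elim y z) F = 0 := by
    intro F hF
    have : Ideal.span (Set.range X.eqs) ≤ RingHom.ker (aeval (Sum.elim y z) :
        MvPolynomial (Fin (n + 1) ⊕ Fin r) k →ₐ[k] M) := by
      rw [Ideal.span_le]
      rintro _ ⟨t, rfl⟩
      exact hx t
    exact this hF
  have h3 := hspan _ (hgI i)
  rw [map_sub, map_pow, aeval_X, map_sum, sub_eq_zero] at h3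
  rw [Sum.elim_inr] at h3
  rw [h3]
  refine Finset.sum_congr rfl fun j _ => ?_
  rw [map_mul, aeval_X, Sum.elim_inl]

section

variable {M : Type} [Field M] [Algebra k M]

theorem weight_sum {F : MvPolynomial (Fin (n + 1) ⊕ Fin r) k} {d : ℕ}
    (hF : F.IsWeightedHomogeneous X.W d) {α : Fin (n + 1) ⊕ Fin r →₀ ℕ} (hα : α ∈ F.support) :
    ∑ j, α (Sum.inl j) + ∑ i, α (Sum.inr i) * X.wt i = d := by
  have h1 := hF (mem_support_iff.1 hα)
  rw [← h1, Finsupp.weight_apply, Finsupp.sum_fintype _ _ (by simp), Fintype.sum_sum_type]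
  simp

theorem aeval_split (F : MvPolynomial (Fin (n + 1) ⊕ Fin r) k) (y : Fin (n + 1) → M)
    (z : Fin r → M) : aeval (Sum.elim y z) F = ∑ α ∈ F.support, algebraMap k M (F.coeff α) *
      ((∏ j, y j ^ α (Sum.inl j)) * ∏ i, z i ^ α (Sum.inr i)) := by
  rw [aeval_def, eval₂_eq']
  refine Finset.sum_congr rfl fun α _ => ?_
  rw [Fintype.prod_sum_type]
  simp only [Sum.elim_inl, Sum.elim_inr]

theorem aeval_wscale {F : MvPolynomial (Fin (n + 1) ⊕ Fin r) k} {d : ℕ}
    (hF : F.IsWeightedHomogeneous X.W d) (c : M) (y : Fin (n + 1) → M) (z : Fin r → M) :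
    aeval (Sum.elim (fun j => c * y j) fun i => c ^ X.wt i * z i) F =
      c ^ d * aeval (Sum.elim y z) F := by
  rw [aeval_split, aeval_split, Finset.mul_sum]
  refine Finset.sum_congr rfl fun α hα => ?_
  have h1 := X.weight_sum hF hα
  simp only [mul_pow, Finset.prod_mul_distrib, ← pow_mul]
  rw [Finset.prod_pow_eq_pow_sum, Finset.prod_pow_eq_pow_sum, ← h1, pow_add]
  simp only [mul_comm (X.wt _)]
  ring

/-- the normalised point -/
theorem Pt.norm {X : FinCover k n r} {y : Fin (n + 1) → M} {z : Fin r → M} (h : X.Pt y z)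
    {l : Fin (n + 1)} (_hl : y l ≠ 0) (t : X.ι) :
    aeval (Sum.elim (fun j => y j / y l) fun i => z i / y l ^ X.wt i) (X.eqs t) = 0 := by
  obtain ⟨d, hd⟩ := X.hom t
  have h1 := X.aeval_wscale hd (y l)⁻¹ y z
  rw [h.2 t, mul_zero] at h1
  rw [← h1]
  congr 2
  funext s
  rcases s with s | s
  · simp only [Sum.elim_inl]
    rw [div_eq_mul_inv, mul_comm]
  · simp only [Sum.elim_inr]
    rw [div_eq_mul_inv, mul_comm, inv_pow]

/-- the spanning set -/
def Sp (F : IntermediateField k M) (ζ : Fin r → M) (E : ℕ) : Submodule F M :=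
  Submodule.span F (Set.range fun α : Fin r → Fin E => ∏ i, ζ i ^ (α i : ℕ))

theorem sp [IsAlgClosed k] : ∃ E : ℕ, 0 < E ∧ ∀ (F : IntermediateField k M) (η : Fin (n + 1) → M)
    (ζ : Fin r → M), (∀ t, aeval (Sum.elim η ζ) (X.eqs t) = 0) → (∀ j, η j ∈ F) →
      ∀ (w : ℕ) (α : Fin r → ℕ), ∑ i, α i * X.wt i = w → ∏ i, ζ i ^ α i ∈ Sp F ζ E := by
  classical
  obtain ⟨E, g, hE, hg, hrel⟩ := X.rel
  refine ⟨E, hE, fun F η ζ hX hη => ?_⟩
  intro w
  induction w using Nat.strong_induction_on with
  | _ w ih =>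
    intro α hα
    by_cases hsm : ∀ i, α i < E
    · exact Submodule.subset_span ⟨fun i => ⟨α i, hsm i⟩, rfl⟩
    · push Not at hsm
      obtain ⟨i, hi⟩ := hsm
      obtain ⟨α', hα'⟩ : ∃ α' : Fin r → ℕ, α = fun j => α' j + if j = i then E else 0 := by
        refine ⟨fun j => α j - if j = i then E else 0, funext fun j => ?_⟩
        by_cases hj : j = i
        · subst hj
          simp only [if_true]
          omega
        · simp [hj]
      have hsum : ∑ j, α' j * X.wt j + E * X.wt i = w := by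
        rw [← hα, hα']
        simp only [add_mul, Finset.sum_add_distrib, ite_mul, zero_mul]
        rw [Finset.sum_ite_eq']
        simp
      have hpos : 0 < E * X.wt i := Nat.mul_pos hE (X.wt_pos i)
      have h1 : (∏ j, ζ j ^ α j) = ∑ j, ∑ β ∈ (g i j).support,
          ((algebraMap k M ((g i j).coeff β) * ∏ l, η l ^ β (Sum.inl l)) * η j) *
            ∏ s, ζ s ^ (α' s + β (Sum.inr s)) := by
        have h2 : (∏ j, ζ j ^ α j) = (∏ j, ζ j ^ α' j) * ζ i ^ E := by
          rw [hα']
          simp only [pow_add, Finset.prod_mul_distrib, pow_ite, pow_zero]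
          rw [Finset.prod_ite_eq']
          simp
        rw [h2, hrel M η ζ hX i, Finset.mul_sum]
        refine Finset.sum_congr rfl fun j _ => ?_
        rw [aeval_split (g i j), Finset.sum_mul, Finset.mul_sum]
        refine Finset.sum_congr rfl fun β _ => ?_
        simp only [pow_add, Finset.prod_mul_distrib]
        ring
      rw [h1]
      refine Submodule.sum_mem _ fun j _ => Submodule.sum_mem _ fun β hβ => ?_
      have h3 := X.weight_sum (hg i j) hβ
      have h4 := ih (∑ s, (α' s + β (Sum.inr s)) * X.wt s) (by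
        simp only [add_mul, Finset.sum_add_distrib]
        omega) (fun s => α' s + β (Sum.inr s)) rfl
      have h5 : (algebraMap k M ((g i j).coeff β) * ∏ l, η l ^ β (Sum.inl l)) * η j ∈ F :=
        mul_mem (mul_mem (F.algebraMap_mem _) (prod_mem fun l _ => pow_mem (hη l) _)) (hη j)
      exact Submodule.smul_mem (Sp F ζ E) (⟨_, h5⟩ : F) h4

/-- The coordinates are algebraic over the field of the coordinates of the image. -/
theorem Pt.alg [IsAlgClosed k] {X : FinCover k n r} {y : Fin (n + 1) → M} {z : Fin r → M}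
    (h : X.Pt y z) {F : IntermediateField k M} {l : Fin (n + 1)} (hl : y l ≠ 0)
    (hF : ∀ j, y j / y l ∈ F) (i : Fin r) : IsAlgebraic F (z i / y l ^ X.wt i) := by
  classical
  obtain ⟨E, hE, hsp⟩ := X.sp (M := M)
  have hsp' := hsp F _ _ (h.norm hl) hF
  refine IsIntegral.isAlgebraic ?_
  refine isIntegral_of_smul_mem_submodule
    (Sp F (fun i => z i / y l ^ X.wt i) E) ?_ ?_ _ ?_
  · intro h0
    have h1 := hsp' 0 (fun _ => 0) (by simp)
    rw [h0, Submodule.mem_bot] at h1
    simp at h1
  · exact Submodule.fg_span (Set.toFinite _)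
  · intro v hv
    induction hv using Submodule.span_induction with
    | mem v hv =>
      obtain ⟨α, rfl⟩ := hv
      have h1 := hsp' _ (fun j => (α j : ℕ) + if j = i then 1 else 0) rfl
      convert h1 using 1
      simp only [pow_add, Finset.prod_mul_distrib, pow_ite, pow_zero]
      rw [Finset.prod_ite_eq']
      simp only [Finset.mem_univ, if_true, smul_eq_mul, pow_one]
      ring
    | zero =>
      rw [smul_zero]
      exact Submodule.zero_mem _
    | add y z _ _ hy hz =>
      rw [smul_add]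
      exact Submodule.add_mem _ hy hz
    | smul c y _ hy =>
      rw [smul_comm]
      exact Submodule.smul_mem _ _ hy

theorem alg_top [IsAlgClosed k] {X : FinCover k n r} {w : ℕ} {y : Fin (n + 1) → M} {z : Fin r → M}
    (h : X.SubVar M w y z) :
    Algebra.IsAlgebraic
      (IntermediateField.adjoin k {f : M | ∃ i j, y j ≠ 0 ∧ f = y i / y j}) M := by
  classical
  set F := IntermediateField.adjoin k {f : M | ∃ i j, y j ≠ 0 ∧ f = y i / y j} with hF
  refine ⟨fun x => ?_⟩
  have hx : x ∈ (⊤ : IntermediateField k M) := trivial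
  rw [← h.gen] at hx
  induction hx using IntermediateField.adjoin_induction with
  | mem x hx =>
    obtain ⟨l, hl, ⟨j, rfl⟩ | ⟨i, rfl⟩⟩ := hx
    · have h2 : y j / y l ∈ F := by
        rw [hF]
        exact IntermediateField.subset_adjoin k _ ⟨j, l, hl, rfl⟩
      exact isAlgebraic_algebraMap (⟨_, h2⟩ : F)
    · exact h.pt.alg hl (fun j => by
        rw [hF]
        exact IntermediateField.subset_adjoin k _ ⟨j, l, hl, rfl⟩) i
  | algebraMap c =>
    have h2 : algebraMap k M c = algebraMap F M (algebraMap k F c) := rfl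
    rw [h2]
    exact isAlgebraic_algebraMap _
  | add y z _ _ hy hz => exact hy.add hz
  | inv y _ hy => exact hy.inv
  | mul y z _ _ hy hz => exact hy.mul hz

end

variable {d m : ℕ} {F : Fin q → MvPolynomial (Fin (n + 1)) k}

/-- **General type.** -/
theorem lgt [IsAlgClosed k] [CharZero k] (hm : 2 ≤ m) (hF : ∀ i, (F i).IsHomogeneous (d + 1))
    (hG : Good m fun i (t : Fin (vd n (d + 1) + 1)) => coeff (en n (d + 1) t).1 (F i)) {κ : Type}
    {G : κ → MvPolynomial (Fin (n + 1) ⊕ Fin r) k} {γ : κ → ℕ}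
    (hR : X.RamifiedOff F m (d + 1) G γ) : X.AllLogGeneralType G γ := by
  intro K _ _ w y z hw hS _
  exact full_gt hm hG (ver_ne hS.pt.1) hw hS.dim (adjoin_ver (alg_top hS)) _ fun P _ hP =>
    multL_ver hF hS.pt.1 (hR K P y z hS.pt (not_not.1 hP))

theorem gt [IsAlgClosed k] [CharZero k] (hm : 2 ≤ m) (hF : ∀ i, (F i).IsHomogeneous (d + 1))
    (hG : Good m fun i (t : Fin (vd n (d + 1) + 1)) => coeff (en n (d + 1) t).1 (F i))
    (hR : X.Ramified F m (d + 1)) : X.AllGeneralType := by
  intro K _ _ w y z hw hS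
  exact Pool.Agent.Y191.LogGeneralType.to (full_gt hm hG (ver_ne hS.pt.1) hw hS.dim
    (adjoin_ver (alg_top hS)) (fun _ => False) fun P _ _ =>
      multL_ver hF hS.pt.1 (hR K P y z hS.pt))

theorem pht_ver [IsAlgClosed k] [CharZero k] {L : Type} [Field L] [Algebra k L] [IsFF k L]
    {y : Fin (n + 1) → L} (hy : y ≠ 0) : pht k y ≤ pht k (ver (d + 1) y) := by
  have h1 : pht k (ver (d + 1) y) = (d + 1 : ℕ) * pht k y := by
    unfold pht
    rw [mul_neg, ← smul_eq_mul, smul_finsum]
    congr 1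
    refine finsum_congr fun P => ?_
    rw [pord_ver P hy, smul_eq_mul]
  have h2 : 0 ≤ pht k y := Pool.Agent.W601.VF.pht_nonneg (Function.ne_iff.1 hy)
  rw [h1]
  push_cast
  nlinarith

/-- **Algebraic hyperbolicity.** -/
theorem algHyp [IsAlgClosed k] [CharZero k] (hm : 2 ≤ m) (hF : ∀ i, (F i).IsHomogeneous (d + 1))
    (hG : Good m fun i (t : Fin (vd n (d + 1) + 1)) => coeff (en n (d + 1) t).1 (F i)) :
    ∃ B : ℕ, ∀ (r : ℕ) (X : FinCover k n r),
      (X.Ramified F m (d + 1) → X.AlgHyp B) ∧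
      ∀ (κ : Type) (G : κ → MvPolynomial (Fin (n + 1) ⊕ Fin r) k) (γ : κ → ℕ),
        X.RamifiedOff F m (d + 1) G γ → X.AlgHypOff B G γ := by
  classical
  obtain ⟨B, hB⟩ := full_ht hm hG
  refine ⟨B, fun r X => ⟨fun hR L _ _ _ y z hX => ?_, fun κ G γ hR L _ _ _ y z hX hG => ?_⟩⟩
  · have h1 := hB L ∅ (ver (d + 1) y) (ver_ne hX.1) fun P _ =>
      multL_ver hF hX.1 (hR L P y z hX)
    rw [Finset.card_empty, Nat.cast_zero, add_zero] at h1
    exact (pht_ver hX.1).trans h1
  · obtain ⟨t, ht⟩ := hG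
    have hfin : {P : Place k L | ¬ Off G γ P y z}.Finite := by
      obtain ⟨T, hT⟩ := exists_supp (k := k) (Finset.univ : Finset (Fin 1))
        ![aeval (Sum.elim y z) (G t)]
      have h1 := pord_finite (k := k) (Function.ne_iff.1 hX.1)
      refine ((Finset.finite_toSet T).union h1).subset fun P hP => ?_
      by_contra hcon
      rw [Set.mem_union, not_or] at hcon
      apply hP
      refine ⟨t, ht, ?_⟩
      have h2 : P.ord (aeval (Sum.elim y z) (G t)) = 0 := by
        by_contra h3
        exact hcon.1 (hT 0 (Finset.mem_univ _) P h3)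
      have h3 : pord P y = 0 := by
        by_contra h4
        exact hcon.2 h4
      rw [h2, h3, mul_zero]
    refine ⟨hfin, ?_⟩
    have h1 := hB L hfin.toFinset (ver (d + 1) y) (ver_ne hX.1) fun P hP =>
      multL_ver hF hX.1 (hR L P y z hX (by
        rw [Set.Finite.mem_toFinset] at hP
        exact not_not.1 hP))
    rw [← Set.ncard_eq_toFinset_card _ hfin] at h1
    exact (pht_ver hX.1).trans h1

end FinCover

end Pool.Agent.Q80.FH
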