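import Pool.Agent.W603.PV.Hgt
import Pool.Agent.W602.GT.Defs
import Pool.Agent.Y191.Lf

/-!
Projective schemes with a finite morphism to a projective space: definitions.
-/

set_option autoImplicit false

namespace Pool.Agent.Q80.FH

open FF MvPolynomial Pool.Agent.W603.LV Pool.Agent.W603.PV Pool.Agent.W602.GT Pool.Agent.Y191

/-- At the place `P` the contact orders of the point `b` of projective space with the hyperplanes
`a i` which do not contain `b` are zero or at least `m`. -/
def MultL {k : Type} [Field k] {n q : ℕ} {K : Type} [Field K] [Algebra k K] (m : ℕ)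
    (a : Fin q → Fin (n + 1) → k) (b : Fin (n + 1) → K) (P : Place k K) : Prop :=
  ∀ i, lf (a i) b ≠ 0 → pord P b < P.ord (lf (a i) b) → pord P b + m ≤ P.ord (lf (a i) b)

/-- At the place `P` the contact orders of the point `y` of projective space with the hypersurfaces
`F i = 0` of degree `d` which do not contain `y` are zero or at least `m`. -/
def MultAt {k : Type} [Field k] {n q : ℕ} {K : Type} [Field K] [Algebra k K] (m d : ℕ)
    (F : Fin q → MvPolynomial (Fin (n + 1)) k) (y : Fin (n + 1) → K) (P : Place k K) : Prop :=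
  ∀ i, aeval y (F i) ≠ 0 → d * pord P y < P.ord (aeval y (F i)) →
    d * pord P y + m ≤ P.ord (aeval y (F i))

/-- the exponents of the monomials of degree `d` in `n + 1` variables -/
abbrev Exps (n d : ℕ) : Type := {α : Fin (n + 1) →₀ ℕ // α.degree = d}

/-- A projective scheme `X` over `k` with a finite morphism to projective `n`-space: the closed
subscheme of the weighted projective space with the coordinates `y 0, …, y n` of weight `1` and
`z 1, …, z r` of weights `wt i` which is defined by the weighted homogeneous polynomials `eqs`. It is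
required that `X` has no points with `y = 0`. The finite morphism is `(y : z) ↦ y`. -/
structure FinCover (k : Type) [Field k] (n r : ℕ) where
  /-- the index set of the equations -/
  ι : Type
  /-- the weights of the coordinates `z i` -/
  wt : Fin r → ℕ
  wt_pos : ∀ i, 0 < wt i
  /-- the equations -/
  eqs : ι → MvPolynomial (Fin (n + 1) ⊕ Fin r) k
  hom : ∀ t, ∃ d, (eqs t).IsWeightedHomogeneous (Sum.elim (fun _ => 1) wt) d
  free : ∀ z : Fin r → k, (∀ t, eval (Sum.elim 0 z) (eqs t) = 0) → z = 0

namespace FinCover

variable {k : Type} [Field k] {n r q : ℕ} (X : FinCover k n r)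

/-- `(y : z)` is a point of `X` with coordinates in the extension `M` of `k`. -/
def Pt {M : Type} [Field M] [Algebra k M] (y : Fin (n + 1) → M) (z : Fin r → M) : Prop :=
  y ≠ 0 ∧ ∀ t, aeval (Sum.elim y z) (X.eqs t) = 0

/-- `P` is not centred in the closed subscheme `D` of `X` defined by the weighted homogeneous
polynomials `G t` of the degrees `γ t`: there is `t` such that the value of `G t` at the point `(y : z)`,
in coordinates such that the minimal order of the coordinates `y j` is zero, has order (at most) zero
at `P`. -/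
def Off {κ : Type} (G : κ → MvPolynomial (Fin (n + 1) ⊕ Fin r) k) (γ : κ → ℕ) {M : Type} [Field M]
    [Algebra k M] (P : Place k M) (y : Fin (n + 1) → M) (z : Fin r → M) : Prop :=
  ∃ t, aeval (Sum.elim y z) (G t) ≠ 0 ∧ P.ord (aeval (Sum.elim y z) (G t)) ≤ γ t * pord P y

/-- The morphism is ramified with the multiplicity at least `m` over the hypersurfaces `F i = 0` of
degree `d`: for all points of `X` over extensions of `k` and all places, the contact orders with the
pullbacks of the hypersurfaces are zero or at least `m`. -/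
def Ramified (F : Fin q → MvPolynomial (Fin (n + 1)) k) (m d : ℕ) : Prop :=
  ∀ (M : Type) [Field M] [Algebra k M] (P : Place k M) (y : Fin (n + 1) → M) (z : Fin r → M),
    X.Pt y z → MultAt m d F y P

/-- The same for the places which are not centred in `D`. -/
def RamifiedOff (F : Fin q → MvPolynomial (Fin (n + 1)) k) (m d : ℕ) {κ : Type}
    (G : κ → MvPolynomial (Fin (n + 1) ⊕ Fin r) k) (γ : κ → ℕ) : Prop :=
  ∀ (M : Type) [Field M] [Algebra k M] (P : Place k M) (y : Fin (n + 1) → M) (z : Fin r → M),
    X.Pt y z → Off G γ P y z → MultAt m d F y P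

/-- `K` is the function field of a closed subvariety of `X` of dimension `w`, with the generic point
`(y : z)`: the functions of weight zero in the coordinates generate `K`. -/
structure SubVar (K : Type) [Field K] [Algebra k K] (w : ℕ) (y : Fin (n + 1) → K)
    (z : Fin r → K) : Prop where
  pt : X.Pt y z
  gen : IntermediateField.adjoin k {f : K | ∃ l, y l ≠ 0 ∧
    ((∃ j, f = y j / y l) ∨ ∃ i, f = z i / y l ^ X.wt i)} = ⊤
  dim : Algebra.trdeg k K = w

/-- All closed subvarieties of `X` of positive dimension are of general type. -/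
def AllGeneralType : Prop :=
  ∀ (K : Type) [Field K] [Algebra k K] (w : ℕ) (y : Fin (n + 1) → K) (z : Fin r → K), 1 ≤ w →
    X.SubVar K w y z → GeneralType k K w

/-- For all closed subvarieties `Y` of `X` of positive dimension which are not contained in `D`, the
variety `Y ∖ D` is of logarithmic general type. -/
def AllLogGeneralType {κ : Type} (G : κ → MvPolynomial (Fin (n + 1) ⊕ Fin r) k) (γ : κ → ℕ) :
    Prop :=
  ∀ (K : Type) [Field K] [Algebra k K] (w : ℕ) (y : Fin (n + 1) → K) (z : Fin r → K), 1 ≤ w →
    X.SubVar K w y z → (∃ t, aeval (Sum.elim y z) (G t) ≠ 0) →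
      LogGeneralType k K w fun P => ¬ Off G γ P y z

/-- `X` is algebraically hyperbolic, with the constant `B`: for all smooth projective curves `C` and
all morphisms `f : C → X` (points of `X` over the function field of `C`) the degree of the pullback
to `C` of the hyperplane class is at most `B * max (2 g(C) - 2) 0`. -/
def AlgHyp (B : ℕ) : Prop :=
  ∀ (L : Type) [Field L] [Algebra k L] [IsFF k L] (y : Fin (n + 1) → L) (z : Fin r → L),
    X.Pt y z → pht k y ≤ B * max (canDeg k L) 0

/-- `(X, D)` is algebraically hyperbolic, with the constant `B`: the degree is at most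
`B * max (2 g(C) - 2 + #f⁻¹(D)) 0` if `f(C)` is not contained in `D`. -/
def AlgHypOff (B : ℕ) {κ : Type} (G : κ → MvPolynomial (Fin (n + 1) ⊕ Fin r) k) (γ : κ → ℕ) :
    Prop :=
  ∀ (L : Type) [Field L] [Algebra k L] [IsFF k L] (y : Fin (n + 1) → L) (z : Fin r → L),
    X.Pt y z → (∃ t, aeval (Sum.elim y z) (G t) ≠ 0) →
      {P : Place k L | ¬ Off G γ P y z}.Finite ∧
      pht k y ≤ B * max (canDeg k L + {P : Place k L | ¬ Off G γ P y z}.ncard) 0

end FinCover

namespace FinCover

variable {n r : ℕ} (X : FinCover ℂ n r)

/-- `X` is Brody hyperbolic: all holomorphic maps from `ℂ` to `X` are constant. -/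
def Brody : Prop :=
  ∀ (y : ℂ → Fin (n + 1) → ℂ) (z : ℂ → Fin r → ℂ), (∀ j, Differentiable ℂ fun s => y s j) →
    (∀ i, Differentiable ℂ fun s => z s i) → (∀ s, X.Pt (y s) (z s)) →
    ∀ s s', ∃ c : ℂ, y s' = c • y s ∧ ∀ i, z s' i = c ^ X.wt i * z s i

/-- `X ∖ D` is Brody hyperbolic. -/
def BrodyOff {κ : Type} (G : κ → MvPolynomial (Fin (n + 1) ⊕ Fin r) ℂ) : Prop :=
  ∀ (y : ℂ → Fin (n + 1) → ℂ) (z : ℂ → Fin r → ℂ), (∀ j, Differentiable ℂ fun s => y s j) →
    (∀ i, Differentiable ℂ fun s => z s i) → (∀ s, X.Pt (y s) (z s)) →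
    (∀ s, ∃ t, aeval (Sum.elim (y s) (z s)) (G t) ≠ 0) →
    ∀ s s', ∃ c : ℂ, y s' = c • y s ∧ ∀ i, z s' i = c ^ X.wt i * z s i

end FinCover

end Pool.Agent.Q80.FH
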