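import Pool.Agent.Q80.FH.Cov
import Pool.Agent.Q80.HC.Ent

/-!
Entire curves in projective schemes with a finite morphism to a projective space with high contact
orders with a general arrangement.
-/

set_option autoImplicit false

namespace Pool.Agent.Q80.FH

open MvPolynomial Pool.Agent.Y216 Pool.Agent.Y191 Pool.Agent.Q80.HC
open FF (Place)
open Pool.Agent.W603.PV (pord pord_le exists_pord)
open Pool.Agent.W602.Cov.R (Ent)
open Pool.Agent.W919.RC.RCV (mk evz ext_ent)

variable {N n q : ℕ}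

theorem order_const_mul {f : ℂ → ℂ} {z c : ℂ} (hf : AnalyticAt ℂ f z) (hc : c ≠ 0) :
    analyticOrderAt (fun w => c * f w) z = analyticOrderAt f z := by
  have h1 := analyticOrderAt_mul (f := fun _ : ℂ => c) (g := f) (z₀ := z) analyticAt_const hf
  have h2 : analyticOrderAt (fun _ : ℂ => c) z = 0 := by
    rw [analyticAt_const.analyticOrderAt_eq_zero]
    exact hc
  rw [h2, zero_add] at h1
  exact h1

/-- **Entire curves in projective space.** -/
theorem full_ent {m : ℕ} (hm : 2 ≤ m) {a : Fin q → Fin (n + 1) → ℂ} (hG : Good m a)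
    {v : ℂ → Fin (n + 1) → ℂ} (hd : ∀ j, Differentiable ℂ fun z => v z j) (hv0 : ∀ z, v z ≠ 0)
    (hM : ∀ i, (∃ z, ∑ j, a i j * v z j ≠ 0) → ∀ z,
      analyticOrderAt (fun w => ∑ j, a i j * v w j) z = 0 ∨
      (m : ℕ∞) ≤ analyticOrderAt (fun w => ∑ j, a i j * v w j) z) :
    ∀ z z', ∃ t : ℂ, v z' = t • v z := by
  classical
  obtain ⟨L, _, _, P, T, hT, -⟩ := Pool.Agent.W727.RC.EPL.main 0
  obtain ⟨V, hV⟩ : ∃ V : Fin (n + 1) → Ent, V = toE v hd := ⟨_, rfl⟩
  have hVz : ∀ z j, evz z (V j) = v z j := by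
    intro z j
    rw [hV]
    rfl
  have hb : (fun j => T (V j)) ≠ 0 := by
    intro h0
    apply hv0 0
    funext j
    have h1 : T (V j) = 0 := congrFun h0 j
    have h2 : V j = 0 := hT (by rw [h1, map_zero])
    rw [← hVz, h2, map_zero]
    rfl
  obtain ⟨s, p, h, σ, τ, hσ, hτ, hστ, hF, hτ0⟩ := exists_flat hG hb
  obtain ⟨-, hrest⟩ := hG s p h σ hσ
  generalize eqv s p n h = e at hF hrest
  have hlfT : ∀ c : Fin (n + 1) → ℂ, lf c (fun j => T (V j)) =
      T (∑ j, algebraMap ℂ Ent (c j) * V j) := by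
    intro c
    unfold lf
    rw [map_sum]
    refine Finset.sum_congr rfl fun j _ => ?_
    rw [map_mul, AlgHom.commutes]
  have hlfz : ∀ (c : Fin (n + 1) → ℂ) z, evz z (∑ j, algebraMap ℂ Ent (c j) * V j) =
      ∑ j, c j * v z j := by
    intro c z
    rw [map_sum]
    refine Finset.sum_congr rfl fun j _ => ?_
    rw [map_mul, AlgHom.commutes, hVz]
    rfl
  have hlin : ∀ i, ∃ c : Fin (p + 1) → ℂ, ∀ z, v z i = ∑ j, c j * v z (e (Sum.inr j)) := by
    intro i
    obtain ⟨c, hc⟩ := hF.lin i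
    refine ⟨c, fun z => ?_⟩
    have h1 : V i = ∑ j, algebraMap ℂ Ent (c j) * V (e (Sum.inr j)) := by
      apply hT
      rw [map_sum]
      refine hc.trans (Finset.sum_congr rfl fun j _ => ?_)
      rw [map_mul, AlgHom.commutes]
    rw [← hVz, h1, map_sum]
    refine Finset.sum_congr rfl fun j _ => ?_
    rw [map_mul, AlgHom.commutes, hVz]
    rfl
  have hzero : ∀ z c, lf (a (σ c)) (v z) = 0 := by
    intro z c
    have h1 := hF.zero c
    rw [hlfT] at h1
    have h2 : ∑ j, algebraMap ℂ Ent (a (σ c) j) * V j = 0 := hT (by rw [h1, map_zero])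
    have h3 := hlfz (a (σ c)) z
    rw [h2, map_zero] at h3
    exact h3.symm
  have hd' : ∀ j : Fin (p + 1), Differentiable ℂ fun z => v z (e (Sum.inr j)) := fun j => hd _
  have hv0' : ∀ z, (fun j : Fin (p + 1) => v z (e (Sum.inr j))) ≠ 0 := by
    intro z h0
    apply hv0 z
    funext i
    obtain ⟨c, hc⟩ := hlin i
    rw [hc z]
    refine Finset.sum_eq_zero fun j _ => ?_
    have : v z (e (Sum.inr j)) = 0 := congrFun h0 j
    rw [this, mul_zero]
  suffices hmain : ∀ z z', ∃ t : ℂ, (fun j : Fin (p + 1) => v z' (e (Sum.inr j))) =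
      t • fun j : Fin (p + 1) => v z (e (Sum.inr j)) by
    intro z z'
    obtain ⟨t, ht⟩ := hmain z z'
    refine ⟨t, funext fun i => ?_⟩
    obtain ⟨c, hc⟩ := hlin i
    rw [Pi.smul_apply, hc z', hc z, smul_eq_mul, Finset.mul_sum]
    refine Finset.sum_congr rfl fun j _ => ?_
    have : v z' (e (Sum.inr j)) = t * v z (e (Sum.inr j)) := congrFun ht j
    rw [this]
    ring
  rcases Nat.eq_zero_or_pos p with hp | hp
  · subst hp
    intro z z'
    have h1 : v z (e (Sum.inr 0)) ≠ 0 := by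
      intro h0
      apply hv0' z
      funext j
      rw [Fin.eq_zero j]
      exact h0
    refine ⟨v z' (e (Sum.inr 0)) / v z (e (Sum.inr 0)), funext fun j => ?_⟩
    rw [Fin.eq_zero j, Pi.smul_apply, smul_eq_mul, div_mul_cancel₀ _ h1]
  · obtain ⟨d, hI, -, hnum⟩ := hrest hp τ hτ hστ
    have hrho : ∀ z i, ∑ j, rho e σ a i j * v z (e (Sum.inr j)) =
        (fA e σ a).det * ∑ j, a i j * v z j := fun z i => lf_rho e σ a (hzero z) i
    refine ineqE_general (n := p) (a := fun i => rho e σ a (τ i)) (m := fun _ => m) hp hI ?_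
      (fun z j => v z (e (Sum.inr j))) hd' hv0' ?_ ?_ ?_
    · rw [Finset.sum_const, Finset.card_univ, Fintype.card_fin, nsmul_eq_mul]
      unfold wt
      rw [if_neg (by omega)]
      push_cast at hnum
      exact hnum
    · intro i
      have h1 := hτ0 hp i
      rw [hlfT] at h1
      by_contra hcon
      push Not at hcon
      apply h1
      have h2 : ∑ j, algebraMap ℂ Ent (a (τ i) j) * V j = 0 := by
        apply ext_ent
        intro z
        rw [hlfz, map_zero]
        have h3 := hcon z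
        rw [hrho] at h3
        exact (mul_eq_zero.1 h3).resolve_left hF.det
      rw [h2, map_zero]
    · exact ⟨0, by rw [map_one]; exact one_ne_zero⟩
    · intro z i
      have h4 : (fun w => ∑ j, rho e σ a (τ i) j * v w (e (Sum.inr j))) =
          fun w => (fA e σ a).det * ∑ j, a (τ i) j * v w j := funext fun w => hrho w (τ i)
      rw [h4, order_const_mul (Differentiable.analyticAt
        (Differentiable.fun_sum fun j _ => (hd j).const_mul _) z) hF.det]
      have h5 : ∃ z, ∑ j, a (τ i) j * v z j ≠ 0 := by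
        by_contra hcon
        push Not at hcon
        apply hτ0 hp i
        rw [hlfT]
        have h2 : ∑ j, algebraMap ℂ Ent (a (τ i) j) * V j = 0 := by
          apply ext_ent
          intro z
          rw [hlfz, map_zero, hcon z]
        rw [h2, map_zero]
      rcases hM (τ i) h5 z with h6 | h6
      · exact Or.inl h6
      · exact Or.inr ⟨(by omega : m ≠ 0), h6⟩

theorem evz_aeval {σ : Type} (U : σ → Ent) (F : MvPolynomial σ ℂ) (z : ℂ) :
    evz z (aeval U F) = aeval (fun i => evz z (U i)) F := by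
  have h1 : (evz z).comp (aeval U) = aeval fun i => evz z (U i) := by
    apply MvPolynomial.algHom_ext
    intro i
    rw [AlgHom.comp_apply, aeval_X, aeval_X]
  exact congrArg (fun f : MvPolynomial σ ℂ →ₐ[ℂ] ℂ => f F) h1

theorem full_ent_d {m d : ℕ} (hm : 2 ≤ m) {F : Fin q → MvPolynomial (Fin (n + 1)) ℂ}
    (hF : ∀ i, (F i).IsHomogeneous (d + 1))
    (hG : Good m fun i (t : Fin (vd n (d + 1) + 1)) => coeff (en n (d + 1) t).1 (F i))
    {v : ℂ → Fin (n + 1) → ℂ} (hd : ∀ j, Differentiable ℂ fun z => v z j) (hv0 : ∀ z, v z ≠ 0)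
    (hM : ∀ i, (∃ z, aeval (v z) (F i) ≠ 0) → ∀ z,
      analyticOrderAt (fun w => aeval (v w) (F i)) z = 0 ∨
      (m : ℕ∞) ≤ analyticOrderAt (fun w => aeval (v w) (F i)) z) :
    ∀ z z', ∃ t : ℂ, v z' = t • v z := by
  classical
  have hsum : ∀ i z, ∑ t : Fin (vd n (d + 1) + 1), coeff (en n (d + 1) t).1 (F i) *
      ver (d + 1) (v z) t = aeval (v z) (F i) := fun i z => lf_ver (hF i) (v z)
  have hmain := full_ent hm hG (v := fun z => ver (d + 1) (v z)) (fun t => by
      unfold ver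
      exact Differentiable.fun_finsetProd fun j _ => (hd j).pow _)
    (fun z => ver_ne (hv0 z)) (fun i hi z => by
      simp only [hsum] at hi ⊢
      exact hM i hi z)
  obtain ⟨l, hl⟩ := Function.ne_iff.1 (hv0 0)
  have hl' : v 0 l ≠ 0 := hl
  have key : ∀ z, ∃ t : ℂ, t ≠ 0 ∧ ∀ j, v z l ^ d * v z j = t * (v 0 l ^ d * v 0 j) := by
    intro z
    obtain ⟨t, ht⟩ := hmain 0 z
    refine ⟨t, ?_, fun j => ?_⟩
    · rintro rfl
      rw [zero_smul] at ht
      exact ver_ne (d := d) (hv0 z) ht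
    · have h1 := congrFun ht ((en n (d + 1)).symm (pex n d l j))
      rw [Pi.smul_apply, ver_pex, ver_pex] at h1
      exact h1
  have hvl : ∀ z, v z l ≠ 0 := by
    intro z h0
    obtain ⟨t, ht, h1⟩ := key z
    have h2 := h1 l
    rw [h0, mul_zero] at h2
    exact mul_ne_zero ht (mul_ne_zero (pow_ne_zero _ hl') hl') h2.symm
  have hz : ∀ z j, v z j = v 0 j / v 0 l * v z l := by
    intro z j
    obtain ⟨t, ht, h1⟩ := key z
    have h2 := h1 l
    have h3 := h1 j
    have h4 : v z l ^ d * (v z j * v 0 l) = v z l ^ d * (v 0 j * v z l) := by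
      calc v z l ^ d * (v z j * v 0 l) = (v z l ^ d * v z j) * v 0 l := by ring
        _ = t * (v 0 l ^ d * v 0 l) * v 0 j := by rw [h3]; ring
        _ = v z l ^ d * (v 0 j * v z l) := by rw [← h2]; ring
    have h5 := mul_left_cancel₀ (pow_ne_zero d (hvl z)) h4
    rw [div_mul_eq_mul_div, eq_div_iff hl', h5]
  intro z z'
  refine ⟨v z' l / v z l, funext fun j => ?_⟩
  have := hvl z
  rw [Pi.smul_apply, smul_eq_mul, hz z' j, hz z j]
  field_simp

theorem FinCover.brodyOff {r : ℕ} {X : FinCover ℂ n r} {m d : ℕ} (hm : 2 ≤ m)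
    {F : Fin q → MvPolynomial (Fin (n + 1)) ℂ} (hF : ∀ i, (F i).IsHomogeneous (d + 1))
    (hG : Good m fun i (t : Fin (vd n (d + 1) + 1)) => coeff (en n (d + 1) t).1 (F i)) {κ : Type}
    {G : κ → MvPolynomial (Fin (n + 1) ⊕ Fin r) ℂ} {γ : κ → ℕ}
    (hR : X.RamifiedOff F m (d + 1) G γ) : X.BrodyOff G := by
  classical
  intro v ζ hvd hζd hX hoff
  have hv0 : ∀ s, v s ≠ 0 := fun s => (hX s).1
  obtain ⟨V, hV⟩ : ∃ V : Fin (n + 1) → Ent,
    V = fun j => Pool.Agent.W919.RC.RCV.mk (fun z => v z j) (hvd j) := ⟨_, rfl⟩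
  obtain ⟨Z, hZ⟩ : ∃ Z : Fin r → Ent,
    Z = fun j => Pool.Agent.W919.RC.RCV.mk (fun z => ζ z j) (hζd j) := ⟨_, rfl⟩
  have hVz : ∀ z j, evz z (V j) = v z j := by
    intro z j
    rw [hV]
    rfl
  have hZz : ∀ z j, evz z (Z j) = ζ z j := by
    intro z j
    rw [hZ]
    rfl
  have hVfun : ∀ j, ((V j : Ent) : ℂ → ℂ) = fun z => v z j := fun j => funext fun z => hVz z j
  have hev : ∀ (F : MvPolynomial (Fin (n + 1) ⊕ Fin r) ℂ) z,
      evz z (aeval (Sum.elim V Z) F) = aeval (Sum.elim (v z) (ζ z)) F := by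
    intro F z
    rw [evz_aeval]
    congr 2
    funext s
    rcases s with s | s
    · exact hVz z s
    · exact hZz z s
  have helim : ∀ (L : Type) [Field L] [Algebra ℂ L] (T : Ent →ₐ[ℂ] L)
      (F : MvPolynomial (Fin (n + 1) ⊕ Fin r) ℂ),
      aeval (Sum.elim (fun j => T (V j)) fun i => T (Z i)) F = T (aeval (Sum.elim V Z) F) := by
    intro L _ _ T F
    rw [MvPolynomial.comp_aeval_apply]
    congr 2
    funext s
    rcases s with s | s <;> rfl
  have hOn : ∀ (L : Type) [Field L] [Algebra ℂ L] (T : Ent →ₐ[ℂ] L), Function.Injective T →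
      X.Pt (fun j => T (V j)) fun i => T (Z i) := by
    intro L _ _ T hT
    refine ⟨?_, ?_⟩
    · intro h0
      apply hv0 0
      funext i
      have h1 : T (V i) = 0 := congrFun h0 i
      have h2 : V i = 0 := hT (by rw [h1, map_zero])
      rw [← hVz, h2, map_zero]
      rfl
    · intro t
      rw [helim]
      have h1 : aeval (Sum.elim V Z) (X.eqs t) = 0 := by
        apply ext_ent
        intro z
        rw [hev, map_zero]
        exact (hX z).2 t
      rw [h1, map_zero]
  have hevF : ∀ (i : Fin q) z, evz z (aeval V (F i)) = aeval (v z) (F i) := by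
    intro i z
    rw [evz_aeval]
    congr 2
    funext s
    exact hVz z s
  have hlf : ∀ (L : Type) [Field L] [Algebra ℂ L] (T : Ent →ₐ[ℂ] L) (i : Fin q),
      aeval (fun j => T (V j)) (F i) = T (aeval V (F i)) := by
    intro L _ _ T i
    exact (MvPolynomial.comp_aeval_apply V T (F i)).symm
  have hprop := full_ent_d hm hF hG hvd hv0 fun i hi z => by
    obtain ⟨L, _, _, P, T, hT, hord⟩ := Pool.Agent.W727.RC.EPL.main z
    have hTne : ∀ f : Ent, f ≠ 0 → T f ≠ 0 := fun f hf h0 => hf (hT (by rw [h0, map_zero]))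
    -- the minimal order is zero
    have hp0 : pord P (fun j => T (V j)) = 0 := by
      obtain ⟨j0, hj0⟩ := Function.ne_iff.1 (hv0 z)
      have hVj0 : V j0 ≠ 0 := by
        intro h0
        apply hj0
        rw [← hVz, h0, map_zero]
        rfl
      apply le_antisymm
      · have h7 := pord_le P (f := fun j => T (V j)) (hTne _ hVj0)
        rw [(hord _ hVj0).2, hVfun] at h7
        have h8 : analyticOrderAt (fun z => v z j0) z = 0 := by
          rw [((hvd j0).analyticAt z).analyticOrderAt_eq_zero]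
          exact hj0
        rw [h8] at h7
        simpa using h7
      · obtain ⟨j, hj, hjo⟩ := exists_pord P (f := fun j => T (V j)) ⟨j0, hTne _ hVj0⟩
        rw [← hjo]
        have hVj : V j ≠ 0 := fun h0 => hj (by simp only [h0, map_zero])
        rw [(hord _ hVj).2]
        exact Int.natCast_nonneg _
    have hoffP : Off G γ P (fun j => T (V j)) fun i => T (Z i) := by
      obtain ⟨t, ht⟩ := hoff z
      obtain ⟨H, hH⟩ : ∃ H : Ent, H = aeval (Sum.elim V Z) (G t) := ⟨_, rfl⟩
      have hHz : evz z H ≠ 0 := by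
        rw [hH, hev]
        exact ht
      have hH0 : H ≠ 0 := by
        intro h0
        apply hHz
        rw [h0, map_zero]
      refine ⟨t, ?_, ?_⟩
      · rw [helim, ← hH]
        exact hTne H hH0
      · rw [helim, ← hH, hp0, mul_zero, (hord H hH0).2]
        have h8 : analyticOrderAt ((H : Ent) : ℂ → ℂ) z = 0 := by
          have h9 : AnalyticAt ℂ ((H : Ent) : ℂ → ℂ) z := Differentiable.analyticAt H.2 z
          rw [h9.analyticOrderAt_eq_zero]
          exact hHz
        rw [h8]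
        simp
    have h1 := hR L P _ _ (hOn L T hT) hoffP i
    obtain ⟨Γ, hΓ⟩ : ∃ Γ : Ent, Γ = aeval V (F i) := ⟨_, rfl⟩
    have hΓz : ∀ z, evz z Γ = aeval (v z) (F i) := by
      intro z
      rw [hΓ, hevF]
    have hΓ0 : Γ ≠ 0 := by
      obtain ⟨z, hz⟩ := hi
      intro h0
      apply hz
      rw [← hΓz, h0, map_zero]
    rw [hlf L T i, ← hΓ] at h1
    have hΓfun : ((Γ : Ent) : ℂ → ℂ) = fun w => aeval (v w) (F i) := funext hΓz
    obtain ⟨h5, h6⟩ := hord Γ hΓ0
    rw [hΓfun] at h5 h6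
    rw [hp0, h6, mul_zero] at h1
    have h7 := h1 (hTne Γ hΓ0)
    obtain ⟨o, ho⟩ := ENat.ne_top_iff_exists.1 h5
    rw [← ho] at h7 ⊢
    simp only [ENat.toNat_natCast, zero_add] at h7
    rcases Nat.eq_zero_or_pos o with h8 | h8
    · left
      rw [h8, Nat.cast_zero]
    · right
      have h9 := h7 (by exact_mod_cast h8)
      exact_mod_cast h9
  -- the coordinates are algebraic
  obtain ⟨L, _, _, P, T, hT, -⟩ := Pool.Agent.W727.RC.EPL.main 0
  have hTne : ∀ f : Ent, f ≠ 0 → T f ≠ 0 := fun f hf h0 => hf (hT (by rw [h0, map_zero]))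
  obtain ⟨l, hl⟩ := Function.ne_iff.1 (hv0 0)
  have hl' : v 0 l ≠ 0 := hl
  have hVl : V l ≠ 0 := by
    intro h0
    apply hl
    rw [← hVz, h0, map_zero]
    rfl
  have hTl : T (V l) ≠ 0 := hTne _ hVl
  have hvl : ∀ s, v s l ≠ 0 := by
    intro s h0
    apply hv0 s
    obtain ⟨t, ht⟩ := hprop s 0
    have h1 : v 0 l = t * v s l := congrFun ht l
    rw [h0, mul_zero] at h1
    exact absurd h1 hl'
  have hratio : ∀ j, T (V j) / T (V l) ∈ (⊥ : IntermediateField ℂ L) := by
    intro j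
    rw [IntermediateField.mem_bot]
    refine ⟨v 0 j / v 0 l, ?_⟩
    rw [eq_div_iff hTl, ← T.commutes, ← map_mul]
    congr 1
    apply ext_ent
    intro z
    rw [map_mul, AlgHom.commutes, hVz, hVz]
    obtain ⟨t, ht⟩ := hprop 0 z
    rw [ht, Pi.smul_apply, Pi.smul_apply, smul_eq_mul, smul_eq_mul]
    change v 0 j / v 0 l * _ = _
    field_simp
  have hconst : ∀ i, ∃ c : ℂ, Z i = algebraMap ℂ Ent c * V l ^ X.wt i := by
    intro i
    have h1 := (hOn L T hT).alg (F := ⊥) (l := l) hTl hratio i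
    have h2 : IsAlgebraic ℂ (T (Z i) / T (V l) ^ X.wt i) := by
      have : Algebra.IsAlgebraic ℂ (⊥ : IntermediateField ℂ L) := inferInstance
      exact IsAlgebraic.restrictScalars ℂ h1
    have h6 := minpoly.mem_range_of_degree_eq_one ℂ (T (Z i) / T (V l) ^ X.wt i)
      (IsAlgClosed.degree_eq_one_of_irreducible ℂ (minpoly.irreducible h2.isIntegral))
    obtain ⟨c, hc⟩ := h6
    refine ⟨c, hT ?_⟩
    rw [map_mul, T.commutes, map_pow, ← div_eq_iff (pow_ne_zero _ hTl)]
    exact hc.symm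
  choose c hc using hconst
  have huc : ∀ z i, ζ z i = c i * v z l ^ X.wt i := by
    intro z i
    rw [← hZz, hc i, map_mul, AlgHom.commutes, map_pow, hVz]
    rfl
  intro s s'
  obtain ⟨t, ht⟩ := hprop s s'
  refine ⟨t, ht, fun i => ?_⟩
  have h1 : v s' l = t * v s l := congrFun ht l
  rw [huc s' i, huc s i, h1, mul_pow]
  ring

theorem FinCover.brody {r : ℕ} {X : FinCover ℂ n r} {m d : ℕ} (hm : 2 ≤ m)
    {F : Fin q → MvPolynomial (Fin (n + 1)) ℂ} (hF : ∀ i, (F i).IsHomogeneous (d + 1))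
    (hG : Good m fun i (t : Fin (vd n (d + 1) + 1)) => coeff (en n (d + 1) t).1 (F i))
    (hR : X.Ramified F m (d + 1)) : X.Brody := by
  intro v ζ hvd hζd hX
  refine FinCover.brodyOff (X := X) (κ := Unit) (G := fun _ => 1) (γ := fun _ => 0) hm hF hG
    (fun M _ _ P y z h1 _ => hR M P y z h1) v ζ hvd hζd hX fun s => ⟨(), ?_⟩
  rw [map_one]
  exact one_ne_zero

end Pool.Agent.Q80.FH
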