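import Pool.Agent.Y191.Cover
import Pool.Agent.Y191.Gen
import Pool.Agent.Q80.HC.Hyper
import Pool.Agent.Y216.GT
import Pool.Agent.Q80.FH.Defs

/-!
Points of projective space with high contact orders with a general arrangement, which may lie in some
of the hyperplanes: heights and (log) general type.
-/

set_option autoImplicit false

namespace Pool.Agent.Q80.FH

open FF MvPolynomial Matrix Pool.Agent.W603.LV Pool.Agent.W603.PV Pool.Agent.W602.GT
open Pool.Agent.Y191 Pool.Agent.Q80.HC Pool.Agent.W601.VF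

variable {k : Type} [Field k] {n q : ℕ}

theorem lf_ge {L : Type} [Field L] [Algebra k L] (P : Place k L) (a : Fin (n + 1) → k)
    (f : Fin (n + 1) → L) : Ge P (pord P f) (lf a f) := by
  unfold lf
  refine Ge.sum _ _ fun j _ => ?_
  have h2 := (Ge.const (P := P) (a j)).mul (ge_pord P f j)
  rwa [zero_add] at h2

/-- weights from multiplicities -/
theorem wt_card {ι : Type} [Fintype ι] {m : ℕ} (hm : 1 ≤ m) (e : ι → ℤ) (he : ∀ i, 0 ≤ e i)
    (h : ∀ i, 0 < e i → (m : ℤ) ≤ e i) (T : Finset ι) (hT : ∀ i ∈ T, 0 < e i) :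
    (T.card : ℝ) ≤ ∑ i, (1 - (1 - 1 / (m : ℝ))) * (e i : ℝ) := by
  classical
  have h1 : (T.card : ℝ) = ∑ i, if i ∈ T then (1 : ℝ) else 0 := by
    rw [Finset.sum_ite_mem, Finset.univ_inter, Finset.sum_const, nsmul_eq_mul, mul_one]
  rw [h1]
  refine Finset.sum_le_sum fun i _ => ?_
  have hm' : (1 : ℝ) ≤ m := by exact_mod_cast hm
  have h6 : 1 - (1 - 1 / (m : ℝ)) = 1 / (m : ℝ) := by ring
  rw [h6]
  have h0 : (0 : ℝ) ≤ e i := by exact_mod_cast he i
  split_ifs with hi
  · have h5 : (m : ℝ) ≤ e i := by exact_mod_cast h i (hT i hi)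
    rw [one_div_mul_eq_div, le_div_iff₀ (by linarith)]
    linarith
  · positivity

section

variable {s p : ℕ} {K : Type} [Field K] [Algebra k K]

/-- the points of a flat -/
structure InFlat (e : Fin s ⊕ Fin (p + 1) ≃ Fin (n + 1)) (σ : Fin s → Fin q)
    (a : Fin q → Fin (n + 1) → k) (b : Fin (n + 1) → K) : Prop where
  det : (fA e σ a).det ≠ 0
  ne : b ≠ 0
  zero : ∀ c, lf (a (σ c)) b = 0

variable {e : Fin s ⊕ Fin (p + 1) ≃ Fin (n + 1)} {σ : Fin s → Fin q}
  {a : Fin q → Fin (n + 1) → k} {b : Fin (n + 1) → K}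

theorem InFlat.ex (h : InFlat e σ a b) : ∃ j, b (e (Sum.inr j)) ≠ 0 :=
  flat_ne e σ a h.det h.zero h.ne

/-- the coordinates are linear combinations of the last coordinates -/
theorem InFlat.lin (h : InFlat e σ a b) (i : Fin (n + 1)) :
    ∃ c : Fin (p + 1) → k, b i = ∑ j, algebraMap k K (c j) * b (e (Sum.inr j)) := by
  classical
  obtain ⟨x, rfl⟩ := e.surjective i
  rcases x with x | j
  · have h1 := flat_solve e σ a h.zero x
    have hdet : algebraMap k K (fA e σ a).det ≠ 0 := by simpa using h.det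
    refine ⟨fun j => -(((fA e σ a).det)⁻¹ * ∑ y, (fA e σ a).adjugate x y *
      a (σ y) (e (Sum.inr j))), ?_⟩
    apply mul_left_cancel₀ hdet
    rw [h1, Finset.mul_sum]
    have h2 : ∀ j, algebraMap k K (fA e σ a).det *
        (algebraMap k K (-(((fA e σ a).det)⁻¹ * ∑ y, (fA e σ a).adjugate x y *
          a (σ y) (e (Sum.inr j)))) * b (e (Sum.inr j))) =
        - ∑ y, algebraMap k K ((fA e σ a).adjugate x y) *
          (algebraMap k K (a (σ y) (e (Sum.inr j))) * b (e (Sum.inr j))) := by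
      intro j
      rw [map_neg, map_mul, map_inv₀, map_sum]
      simp only [map_mul]
      rw [← mul_assoc, mul_neg, ← mul_assoc, mul_inv_cancel₀ hdet, one_mul, neg_mul,
        Finset.sum_mul]
      congr 1
      refine Finset.sum_congr rfl fun y _ => ?_
      ring
    simp only [h2]
    rw [Finset.sum_neg_distrib, Finset.sum_comm]
    congr 1
    refine Finset.sum_congr rfl fun y _ => ?_
    rw [Finset.mul_sum]
  · refine ⟨Pi.single j 1, ?_⟩
    rw [Finset.sum_eq_single j]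
    · rw [Pi.single_eq_same, map_one, one_mul]
    · intro l _ hl
      rw [Pi.single_eq_of_ne hl, map_zero, zero_mul]
    · intro h
      exact absurd (Finset.mem_univ _) h

theorem InFlat.pord_eq (h : InFlat e σ a b) (P : Place k K) :
    pord P (fun j => b (e (Sum.inr j))) = pord P b := by
  obtain ⟨j0, hj0⟩ := h.ex
  have hb : ∃ j, b j ≠ 0 := ⟨_, hj0⟩
  apply le_antisymm
  · obtain ⟨i, hi, hio⟩ := exists_pord P hb
    rw [← hio]
    obtain ⟨c, hc⟩ := h.lin i
    have h1 := lf_ge P c (fun j => b (e (Sum.inr j)))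
    unfold lf at h1
    rw [← hc] at h1
    exact h1.resolve_left hi
  · obtain ⟨j, hj, hjo⟩ := exists_pord P (f := fun j => b (e (Sum.inr j))) ⟨j0, hj0⟩
    rw [← hjo]
    exact pord_le P hj

theorem InFlat.lf_eq (h : InFlat e σ a b) (i : Fin q) :
    lf (rho e σ a i) (fun j => b (e (Sum.inr j))) =
      algebraMap k K (fA e σ a).det * lf (a i) b := lf_rho e σ a h.zero i

theorem InFlat.lf_ne (h : InFlat e σ a b) {i : Fin q} (hi : lf (a i) b ≠ 0) :
    lf (rho e σ a i) (fun j => b (e (Sum.inr j))) ≠ 0 := by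
  rw [h.lf_eq]
  exact mul_ne_zero (by simpa using h.det) hi

theorem InFlat.ord_lf (h : InFlat e σ a b) {i : Fin q} (hi : lf (a i) b ≠ 0) (P : Place k K) :
    P.ord (lf (rho e σ a i) (fun j => b (e (Sum.inr j)))) = P.ord (lf (a i) b) := by
  rw [h.lf_eq, P.ord_mul (by simpa using h.det) hi, P.ord_const h.det, zero_add]

theorem InFlat.mult (h : InFlat e σ a b) {m : ℕ} {P : Place k K} (hP : MultL m a b P)
    {q' : ℕ} {τ : Fin q' → Fin q} (hτ : ∀ i, lf (a (τ i)) b ≠ 0) :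
    MultL m (fun i => rho e σ a (τ i)) (fun j => b (e (Sum.inr j))) P := by
  intro i _ hlt
  rw [h.pord_eq, h.ord_lf (hτ i)] at hlt ⊢
  exact hP (τ i) (hτ i) hlt

/-- the flat of a point -/
theorem exists_flat {m : ℕ} {a : Fin q → Fin (n + 1) → k} (hG : Good m a)
    {b : Fin (n + 1) → K} (hb : b ≠ 0) :
    ∃ (s p : ℕ) (h : s + (p + 1) = n + 1) (σ : Fin s → Fin q) (τ : Fin (q - s) → Fin q),
      Function.Injective σ ∧ Function.Injective τ ∧ (∀ a b, σ a ≠ τ b) ∧
      InFlat (eqv s p n h) σ a b ∧ (0 < p → ∀ i, lf (a (τ i)) b ≠ 0) := by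
  classical
  obtain ⟨s, p, h, σ, hσ, hσ0, hσ1⟩ := exists_zero_set (n := n)
    (Finset.univ.filter fun j => lf (a j) b = 0)
  obtain ⟨hdet, -⟩ := hG s p h σ hσ
  obtain ⟨τ, hτ, hστ, -⟩ := exists_compl hσ
  refine ⟨s, p, h, σ, τ, hσ, hτ, hστ, ⟨hdet, hb, fun c => (Finset.mem_filter.1 (hσ0 c)).2⟩, ?_⟩
  intro hp i h0
  obtain ⟨c, hc⟩ := hσ1 hp (τ i) (Finset.mem_filter.2 ⟨Finset.mem_univ _, h0⟩)
  exact hστ c i hc

end

/-- **General type.** -/
theorem full_gt [CharZero k] {m : ℕ} (hm : 2 ≤ m) {a : Fin q → Fin (n + 1) → k} (hG : Good m a)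
    {K : Type} [Field K] [Algebra k K] {w : ℕ} {b : Fin (n + 1) → K} (hb : b ≠ 0) (hw : 0 < w)
    (htr : Algebra.trdeg k K = w)
    (halg : Algebra.IsAlgebraic
      (IntermediateField.adjoin k {f : K | ∃ i j, b j ≠ 0 ∧ f = b i / b j}) K)
    (Bd : Place k K → Prop) (hP : ∀ P : Place k K, Divisorial w P → ¬ Bd P → MultL m a b P) :
    LogGeneralType k K w Bd := by
  classical
  obtain ⟨s, p, h, σ, τ, hσ, hτ, hστ, hF, hτ0⟩ := exists_flat hG hb
  obtain ⟨-, hrest⟩ := hG s p h σ hσ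
  generalize eqv s p n h = e at hF hrest
  obtain ⟨v, hv⟩ : ∃ v : Fin (p + 1) → K, v = fun j => b (e (Sum.inr j)) := ⟨_, rfl⟩
  have hv0 : ∃ j, v j ≠ 0 := by rw [hv]; exact hF.ex
  obtain ⟨j1, hj1⟩ := hv0
  have halg' : Algebra.IsAlgebraic
      (IntermediateField.adjoin k {f : K | ∃ i j, v j ≠ 0 ∧ f = v i / v j}) K := by
    have hle : IntermediateField.adjoin k {f : K | ∃ i j, b j ≠ 0 ∧ f = b i / b j} ≤
        IntermediateField.adjoin k {f : K | ∃ i j, v j ≠ 0 ∧ f = v i / v j} := by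
      rw [IntermediateField.adjoin_le_iff]
      rintro _ ⟨i, j, hj, rfl⟩
      have h1 : ∀ i, b i / v j1 ∈
          IntermediateField.adjoin k {f : K | ∃ i j, v j ≠ 0 ∧ f = v i / v j} := by
        intro i
        obtain ⟨c, hc⟩ := hF.lin i
        rw [hc, Finset.sum_div]
        refine sum_mem fun l _ => ?_
        rw [mul_div_assoc]
        refine mul_mem (IntermediateField.algebraMap_mem _ _) ?_
        refine IntermediateField.subset_adjoin k _ ⟨l, j1, hj1, ?_⟩
        rw [hv]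
      have h2 : b i / b j = b i / v j1 / (b j / v j1) := by
        field_simp
      rw [h2]
      exact div_mem (h1 i) (h1 j)
    let := (IntermediateField.inclusion hle).toAlgebra
    have : IsScalarTower
        (IntermediateField.adjoin k {f : K | ∃ i j, b j ≠ 0 ∧ f = b i / b j})
        (IntermediateField.adjoin k {f : K | ∃ i j, v j ≠ 0 ∧ f = v i / v j}) K :=
      IsScalarTower.of_algebraMap_eq fun _ => rfl
    exact Algebra.IsAlgebraic.tower_top
      (K := IntermediateField.adjoin k {f : K | ∃ i j, b j ≠ 0 ∧ f = b i / b j}) _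
  obtain ⟨σ', hσ', hbas⟩ := exists_sigma hj1 halg' htr
  have hwp := w_le σ' hσ' hbas
  have hp : 0 < p := by omega
  obtain ⟨d, hI, hgp, hnum⟩ := hrest hp τ hτ hστ
  have hm' : (2 : ℝ) ≤ m := by exact_mod_cast hm
  have hwt0 : ∀ _ : Fin (q - s), (0 : ℝ) ≤ 1 - 1 / m := fun _ => by
    rw [sub_nonneg, div_le_one (by linarith)]
    linarith
  have hwt1 : ∀ _ : Fin (q - s), (1 : ℝ) - 1 / m ≤ 1 := fun _ => by
    have : (0 : ℝ) ≤ 1 / m := by positivity
    linarith
  have hlt : (2 * (p + d - 1).choose (p - 1) : ℕ) < ∑ _ : Fin (q - s), ((1 : ℝ) - 1 / m) := by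
    rw [Finset.sum_const, Finset.card_univ, Fintype.card_fin, nsmul_eq_mul]
    exact hnum
  obtain ⟨R, -, hmain⟩ := eff_uniform (k := k) hp hI hgp hwt0 hwt1 hlt
  have hlne : ∀ i, lf (rho e σ a (τ i)) v ≠ 0 := fun i => by
    rw [hv]
    exact hF.lf_ne (hτ0 hp i)
  refine (hmain K w v hw htr halg' ⟨j1, hj1⟩ hlne Bd fun P hPd hPB => ?_).2
  intro c ee h1 h2 h3
  have hM : MultL m (fun i => rho e σ a (τ i)) v P := by
    rw [hv]
    exact hF.mult (hP P hPd hPB) (hτ0 hp)
  have hpc : pord P v = c := by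
    apply le_antisymm
    · obtain ⟨j, hj, hjc⟩ := h2
      rw [← hjc]
      exact pord_le P hj
    · obtain ⟨j, hj, hjc⟩ := exists_pord P ⟨j1, hj1⟩
      rw [← hjc]
      exact h1 j hj
  have h4 := wt_card (m := m) (by omega) (fun i => (ee i : ℤ)) (fun i => by positivity)
    (fun i hi => by
      have h5 := hM i (hlne i) (by rw [hpc, h3]; omega)
      rw [hpc, h3] at h5
      omega) (Finset.univ.filter fun i => ee i ≠ 0) (fun i hi => by
      have := (Finset.mem_filter.1 hi).2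
      have h6 : 0 < ee i := Nat.pos_of_ne_zero this
      exact_mod_cast h6)
  refine h4.trans (le_of_eq ?_)
  refine Finset.sum_congr rfl fun i _ => ?_
  push_cast
  ring

section

variable [IsAlgClosed k] [CharZero k]

/-- the height inequality for the points which are in none of the hyperplanes -/
theorem ineq_m {p : ℕ} (hp : 0 < p) {d q' m : ℕ} (hm : 2 ≤ m) {ρ : Fin q' → Fin (p + 1) → k}
    (hI : IndT d ρ) (hnum : (2 * (p + d - 1).choose (p - 1) : ℕ) < (q' : ℝ) * (1 - 1 / m)) :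
    ∃ B : ℕ, ∀ (L : Type) [Field L] [Algebra k L] [IsFF k L] (S : Finset (Place k L))
      (v : Fin (p + 1) → L), (∀ i, lf (ρ i) v ≠ 0) → (∀ P ∉ S, MultL m ρ v P) →
      pht k v ≤ B * max (canDeg k L + S.card) 0 := by
  classical
  have hm' : (2 : ℝ) ≤ m := by exact_mod_cast hm
  have hwt1 : ∀ _ : Fin q', (1 : ℝ) - 1 / m ≤ 1 := fun _ => by
    have : (0 : ℝ) ≤ 1 / m := by positivity
    linarith
  have hlt : 2 * (((p + d - 1).choose (p - 1) : ℕ) : ℝ) < ∑ _ : Fin q', ((1 : ℝ) - 1 / m) := by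
    rw [Finset.sum_const, Finset.card_univ, Fintype.card_fin, nsmul_eq_mul]
    push_cast at hnum
    exact hnum
  obtain ⟨d', rfl⟩ := pos_degree (n := p) (ℓ := ρ) hI hwt1 hlt hp
  have hnd : p + (d' + 1) - 1 = p + d' := by omega
  rw [hnd] at hlt
  obtain ⟨B, hB⟩ := exists_nat_ge ((((p + d').choose (p - 1) : ℕ) : ℝ) /
    (∑ _ : Fin q', ((1 : ℝ) - 1 / m) - 2 * (((p + d').choose (p - 1) : ℕ) : ℝ)))
  refine ⟨B, fun L _ _ _ S v hne hS => ?_⟩
  have h1 := hyper_pt hp (ℓ := ρ) hI hwt1 hlt (f := v) hne S fun P hP => by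
    refine wt_card (m := m) (by omega)
      (fun i => P.ord (∑ j, algebraMap k L (ρ i j) * v j) - pord P v) (fun i => ?_)
      (fun i hi => ?_) _ (fun i hi => ?_)
    · exact sub_nonneg.2 ((lf_ge P (ρ i) v).resolve_left (hne i))
    · have h2 := hS P hP i (hne i) (sub_pos.1 hi)
      have h3 : pord P v + m ≤ P.ord (∑ j, algebraMap k L (ρ i j) * v j) := h2
      linarith
    · exact sub_pos.2 (Finset.mem_filter.1 hi).2
  have hc : 0 < ∑ _ : Fin q', ((1 : ℝ) - 1 / m) - 2 * (((p + d').choose (p - 1) : ℕ) : ℝ) := by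
    linarith
  have hX : (0 : ℝ) ≤ ((max (canDeg k L + S.card) 0 : ℤ) : ℝ) := by
    exact_mod_cast le_max_right _ _
  have h2 : (pht k v : ℝ) ≤ B * ((max (canDeg k L + S.card) 0 : ℤ) : ℝ) := by
    have h3 : (pht k v : ℝ) ≤ (((p + d').choose (p - 1) : ℕ) : ℝ) /
        (∑ _ : Fin q', ((1 : ℝ) - 1 / m) - 2 * (((p + d').choose (p - 1) : ℕ) : ℝ)) *
        ((max (canDeg k L + S.card) 0 : ℤ) : ℝ) := by
      rw [div_mul_eq_mul_div, le_div_iff₀ hc]
      linarith
    exact h3.trans (mul_le_mul_of_nonneg_right hB hX)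
  exact_mod_cast h2

theorem exists_common {ι : Type} [Finite ι] {Q : ι → ℕ → Prop}
    (hmono : ∀ i B B', B ≤ B' → Q i B → Q i B') (h : ∀ i, ∃ B, Q i B) : ∃ B, ∀ i, Q i B := by
  classical
  have := Fintype.ofFinite ι
  choose B hB using h
  exact ⟨∑ i, B i, fun i => hmono i _ _ (Finset.single_le_sum (f := B)
    (fun _ _ => Nat.zero_le _) (Finset.mem_univ i)) (hB i)⟩

/-- **The height inequality.** -/
theorem full_ht {m : ℕ} (hm : 2 ≤ m) {a : Fin q → Fin (n + 1) → k} (hG : Good m a) :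
    ∃ B : ℕ, ∀ (L : Type) [Field L] [Algebra k L] [IsFF k L] (S : Finset (Place k L))
      (b : Fin (n + 1) → L), b ≠ 0 → (∀ P ∉ S, MultL m a b P) →
      pht k b ≤ B * max (canDeg k L + S.card) 0 := by
  classical
  let Q : (Σ s : Fin (n + 1), (Fin s → Fin q) × (Fin (q - s) → Fin q)) → ℕ → Prop :=
    fun x B => ∀ (p : ℕ) (h : (x.1 : ℕ) + (p + 1) = n + 1), 0 < p → Function.Injective x.2.1 →
      Function.Injective x.2.2 → (∀ a b, x.2.1 a ≠ x.2.2 b) →
      ∀ (L : Type) [Field L] [Algebra k L] [IsFF k L] (S : Finset (Place k L))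
        (v : Fin (p + 1) → L), (∀ i, lf (rho (eqv x.1 p n h) x.2.1 a (x.2.2 i)) v ≠ 0) →
        (∀ P ∉ S, MultL m (fun i => rho (eqv x.1 p n h) x.2.1 a (x.2.2 i)) v P) →
        pht k v ≤ B * max (canDeg k L + S.card) 0
  obtain ⟨B, hB⟩ : ∃ B, ∀ x, Q x B := by
    refine exists_common (fun x B B' hBB' hx p h hp h1 h2 h3 L _ _ _ S v h4 h5 =>
      (hx p h hp h1 h2 h3 L S v h4 h5).trans ?_) fun x => ?_
    · exact mul_le_mul_of_nonneg_right (by exact_mod_cast hBB') (le_max_right _ _)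
    · obtain ⟨s, σ, τ⟩ := x
      by_cases hc : 0 < n - s ∧ Function.Injective σ ∧ Function.Injective τ ∧
        ∀ a b, σ a ≠ τ b
      · obtain ⟨hp, hσ, hτ, hστ⟩ := hc
        have h0 : (s : ℕ) + ((n - s) + 1) = n + 1 := by omega
        obtain ⟨-, hrest⟩ := hG s (n - s) h0 σ hσ
        obtain ⟨d, hI, -, hnum⟩ := hrest hp τ hτ hστ
        obtain ⟨B, hB⟩ := ineq_m hp hm hI hnum
        refine ⟨B, fun p h _ _ _ _ => ?_⟩
        obtain rfl : p = n - s := by
          simp only at h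
          omega
        exact hB
      · refine ⟨0, fun p h hp h1 h2 h3 => absurd ⟨?_, h1, h2, h3⟩ hc⟩
        simp only at h
        omega
  refine ⟨B, fun L _ _ _ S b hb hS => ?_⟩
  obtain ⟨s, p, h, σ, τ, hσ, hτ, hστ, hF, hτ0⟩ := exists_flat hG hb
  have hpe : pht k b = pht k (fun j => b (eqv s p n h (Sum.inr j))) := by
    unfold pht
    congr 1
    exact finsum_congr fun P => (hF.pord_eq P).symm
  rw [hpe]
  rcases Nat.eq_zero_or_pos p with h0 | hp
  · subst h0
    obtain ⟨j, hj⟩ := hF.ex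
    have h1 : pht k (fun j => b (eqv s 0 n h (Sum.inr j))) = 0 :=
      Pool.Agent.W601.VF.pht_const (l := j) hj (c := fun _ => 1) fun j' => by
        rw [show j' = j from Fin.ext (by omega), map_one, mul_one]
    rw [h1]
    exact mul_nonneg (by positivity) (le_max_right _ _)
  · exact hB ⟨⟨s, by omega⟩, σ, τ⟩ p h hp hσ hτ hστ L S _ (fun i => hF.lf_ne (hτ0 hp i))
      fun P hP => hF.mult (hS P hP) (hτ0 hp)

end

end Pool.Agent.Q80.FH
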