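import Pool.Agent.Q80.FH.Ent

/-!
Finite morphisms to projective space which are ramified over general hypersurfaces: the theorems.
-/

set_option autoImplicit false

namespace Pool.Agent.Q80.FH

open FF MvPolynomial Pool.Agent.Y191

/-- General hypersurfaces, over any algebraically closed field of characteristic zero. -/
theorem main_k (k : Type) [Field k] [IsAlgClosed k] [CharZero k] {n d m N K q : ℕ} (hn : 1 ≤ n)
    (hd : 1 ≤ d) (hm : 2 ≤ m) (hN : N + 1 = (n + d).choose n) (hK : 2 * N * m ≤ K * (m - 1))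
    (hq : (N + K).choose N < q) :
    ∃ Ψ : MvPolynomial (Fin q × Exps n d) k, Ψ ≠ 0 ∧
      ∀ F : Fin q → MvPolynomial (Fin (n + 1)) k, (∀ i, (F i).IsHomogeneous d) →
        eval (fun x => coeff x.2.1 (F x.1)) Ψ ≠ 0 →
          (∃ B : ℕ, ∀ (r : ℕ) (X : FinCover k n r),
            (X.Ramified F m d → X.AlgHyp B ∧ X.AllGeneralType) ∧
            ∀ (κ : Type) (G : κ → MvPolynomial (Fin (n + 1) ⊕ Fin r) k) (γ : κ → ℕ),
              X.RamifiedOff F m d G γ → X.AlgHypOff B G γ ∧ X.AllLogGeneralType G γ) := by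
  obtain ⟨d, rfl⟩ : ∃ d', d = d' + 1 := ⟨d - 1, by omega⟩
  have hNv : N = vd n (d + 1) := by
    have := vd_add n (d + 1)
    omega
  subst hNv
  obtain ⟨Ψ, h1, h2⟩ := generic_hyp k (d := d) hn hm hK hq
  refine ⟨Ψ, h1, fun F hF hΨ => ?_⟩
  have hG := h2 F hΨ
  obtain ⟨B, hB⟩ := FinCover.algHyp hm hF hG
  refine ⟨B, fun r X => ⟨fun hR => ⟨(hB r X).1 hR, X.gt hm hF hG hR⟩, fun κ G γ hR =>
    ⟨(hB r X).2 κ G γ hR, X.lgt hm hF hG hR⟩⟩⟩

/-- General hypersurfaces over the complex numbers. -/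
theorem main_c {n d m N K q : ℕ} (hn : 1 ≤ n)
    (hd : 1 ≤ d) (hm : 2 ≤ m) (hN : N + 1 = (n + d).choose n) (hK : 2 * N * m ≤ K * (m - 1))
    (hq : (N + K).choose N < q) :
    ∃ Ψ : MvPolynomial (Fin q × Exps n d) ℂ, Ψ ≠ 0 ∧
      ∀ F : Fin q → MvPolynomial (Fin (n + 1)) ℂ, (∀ i, (F i).IsHomogeneous d) →
        eval (fun x => coeff x.2.1 (F x.1)) Ψ ≠ 0 →
          ∀ (r : ℕ) (X : FinCover ℂ n r),
            (X.Ramified F m d → X.Brody ∧ X.AllGeneralType) ∧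
            ∀ (κ : Type) (G : κ → MvPolynomial (Fin (n + 1) ⊕ Fin r) ℂ) (γ : κ → ℕ),
              X.RamifiedOff F m d G γ → X.BrodyOff G ∧ X.AllLogGeneralType G γ := by
  obtain ⟨d, rfl⟩ : ∃ d', d = d' + 1 := ⟨d - 1, by omega⟩
  have hNv : N = vd n (d + 1) := by
    have := vd_add n (d + 1)
    omega
  subst hNv
  obtain ⟨Ψ, h1, h2⟩ := generic_hyp ℂ (d := d) hn hm hK hq
  refine ⟨Ψ, h1, fun F hF hΨ r X => ?_⟩
  have hG := h2 F hΨ
  exact ⟨fun hR => ⟨FinCover.brody hm hF hG hR, X.gt hm hF hG hR⟩, fun κ G γ hR =>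
    ⟨FinCover.brodyOff hm hF hG hR, X.lgt hm hF hG hR⟩⟩

end Pool.Agent.Q80.FH
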