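import Pool.Agent.Q80.FH.Main
import Pool.Agent.Y216.Point

/-!
Finite morphisms to projective space which are ramified over general hypersurfaces: pointed maps.
-/

set_option autoImplicit false

namespace Pool.Agent.Q80.FH

open FF MvPolynomial Pool.Agent.W603.LV Pool.Agent.W603.PV Pool.Agent.W602.GT Pool.Agent.Y191

namespace FinCover

variable {k : Type} [Field k] {n r : ℕ} (X : FinCover k n r)

/-- The value of the function `f` at the place `c` is `a`. -/
def HasVal {L : Type} [Field L] [Algebra k L] (c : Place k L) (f : L) (a : k) : Prop :=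
  f = algebraMap k L a ∨ 0 < c.ord (f - algebraMap k L a)

/-- For all smooth projective curves `C` (with the function field `L`), points `c` of `C` and points `x`
of `X`, the morphisms from `C` to `X` which map `c` to `x` are finite in number. The coordinates
`(a : b)` of `x` are normalised by `a l = 1`; then the coordinate `y l` of such a morphism is not the
zero function, and the coordinates of the morphism are normalised by `y l = 1`. -/
def PointedFinite : Prop :=
  ∀ (L : Type) [Field L] [Algebra k L] [IsFF k L] (c : Place k L) (a : Fin (n + 1) → k)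
    (b : Fin r → k) (l : Fin (n + 1)), X.Pt a b → a l = 1 →
    {f : (Fin (n + 1) → L) × (Fin r → L) | X.Pt f.1 f.2 ∧ f.1 l = 1 ∧ (∀ j, HasVal c (f.1 j) (a j)) ∧
      ∀ i, HasVal c (f.2 i) (b i)}.Finite

variable {X}

/-- The coordinates `z i` are integral over the coordinates `y j`. -/
theorem Pt.ge [IsAlgClosed k] {L : Type} [Field L] [Algebra k L] {y : Fin (n + 1) → L}
    {z : Fin r → L} (h : X.Pt y z) (P : Place k L) (i : Fin r) :
    Ge P (X.wt i * pord P y) (z i) := by
  classical
  obtain ⟨l, hl, hlP⟩ := exists_pord P (Function.ne_iff.1 h.1)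
  obtain ⟨E, g, hE, hg, hrel⟩ := X.rel
  set η : Fin (n + 1) → L := fun j => y j / y l with hη
  set ζ : Fin r → L := fun i => z i / y l ^ X.wt i with hζ
  have hrel' := hrel L η ζ (h.norm hl)
  have hηP : ∀ j, Ge P 0 (η j) := by
    intro j
    have h1 := ge_pord P y j
    have h2 : y l * η j = y j := by
      simp only [hη]
      field_simp
    rw [← h2] at h1
    have h3 := Ge.of_mul hl h1
    rw [hlP, sub_self] at h3
    exact h3
  have key : ∀ i, Ge P 0 (ζ i) := by
    by_contra hcon
    push Not at hcon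
    obtain ⟨i1, hi1⟩ := hcon
    have hne : ∀ i, ¬ Ge P 0 (ζ i) → ζ i ≠ 0 ∧ P.ord (ζ i) < 0 := by
      intro i hi
      refine ⟨fun h0 => hi (Or.inl h0), ?_⟩
      by_contra h0
      exact hi (Or.inr (not_lt.1 h0))
    -- minimise the quotient of the order by the weight
    obtain ⟨i0, hi00, hi0⟩ := Finset.exists_min_image (Finset.univ.filter fun i => ζ i ≠ 0)
      (fun i => (P.ord (ζ i) : ℚ) / X.wt i) ⟨i1, by simp [(hne i1 hi1).1]⟩
    have hw : ∀ i, (0 : ℚ) < X.wt i := fun i => by exact_mod_cast X.wt_pos i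
    have h1 := hi0 i1 (by simp [(hne i1 hi1).1])
    have hneg : (P.ord (ζ i0) : ℚ) / X.wt i0 < 0 := by
      refine lt_of_le_of_lt h1 (div_neg_of_neg_of_pos ?_ (hw i1))
      exact_mod_cast (hne i1 hi1).2
    have hz0 : ζ i0 ≠ 0 := (Finset.mem_filter.1 hi00).2
    set q0 : ℚ := (P.ord (ζ i0) : ℚ) / X.wt i0 with hq0
    have hmin : ∀ i, q0 * X.wt i ≤ P.ord (ζ i) := by
      intro i
      by_cases h0 : ζ i = 0
      · rw [h0, P.ord_zero, Int.cast_zero]
        exact mul_nonpos_of_nonpos_of_nonneg hneg.le (hw i).le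
      · have h2 := hi0 i (by simp [h0])
        rwa [le_div_iff₀ (hw i)] at h2
    have hord0 : (P.ord (ζ i0) : ℚ) = q0 * X.wt i0 := by
      rw [hq0, div_mul_cancel₀ _ (hw i0).ne']
    have hterm : ∀ j, Ge P (E * P.ord (ζ i0) + 1) (aeval (Sum.elim η ζ) (g i0 j) * η j) := by
      intro j
      rw [aeval_split]
      have h2 : Ge P (E * P.ord (ζ i0) + 1) (∑ α ∈ (g i0 j).support,
          algebraMap k L ((g i0 j).coeff α) *
            ((∏ j, η j ^ α (Sum.inl j)) * ∏ i, ζ i ^ α (Sum.inr i))) := by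
        refine Ge.sum _ _ fun α hα => ?_
        have h3 := X.weight_sum (hg i0 j) hα
        have h4 : Ge P 0 (∏ j, η j ^ α (Sum.inl j)) := by
          have h5 := Ge.prod (P := P) Finset.univ (fun j => η j ^ α (Sum.inl j)) (fun _ => 0)
            fun j _ => by simpa using (hηP j).pow (α (Sum.inl j))
          simpa using h5
        have h5 := Ge.prod (P := P) Finset.univ (fun i => ζ i ^ α (Sum.inr i))
          (fun i => α (Sum.inr i) * P.ord (ζ i))
          fun i _ => Ge.pow (P := P) (f := ζ i) (Or.inr le_rfl) (α (Sum.inr i))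
        have h6 := (Ge.const (P := P) ((g i0 j).coeff α)).mul (h4.mul h5)
        refine h6.mono ?_
        have h7 : (E * P.ord (ζ i0) : ℤ) < ∑ i, (α (Sum.inr i) : ℤ) * P.ord (ζ i) := by
          have h8 : ∑ i, α (Sum.inr i) * X.wt i + 1 ≤ E * X.wt i0 := by
            have : 0 < E * X.wt i0 := Nat.mul_pos hE (X.wt_pos i0)
            omega
          have h9 : ((∑ i, α (Sum.inr i) * X.wt i : ℕ) : ℚ) + 1 ≤ E * X.wt i0 := by
            exact_mod_cast h8
          have h10 : q0 * ((∑ i, α (Sum.inr i) * X.wt i : ℕ) : ℚ) ≤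
              ∑ i, (α (Sum.inr i) : ℚ) * P.ord (ζ i) := by
            push_cast
            rw [Finset.mul_sum]
            refine Finset.sum_le_sum fun i _ => ?_
            have h11 := mul_le_mul_of_nonneg_left (hmin i)
              (Nat.cast_nonneg (α (Sum.inr i)) : (0 : ℚ) ≤ _)
            calc q0 * ((α (Sum.inr i) : ℚ) * X.wt i) = (α (Sum.inr i) : ℚ) * (q0 * X.wt i) := by
                  ring
              _ ≤ _ := h11
          have h12 : ((E * P.ord (ζ i0) : ℤ) : ℚ) <
              ((∑ i, (α (Sum.inr i) : ℤ) * P.ord (ζ i) : ℤ) : ℚ) := by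
            push_cast
            rw [hord0]
            refine lt_of_lt_of_le ?_ h10
            nlinarith
          exact_mod_cast h12
        omega
      have h3 := h2.mul (hηP j)
      rwa [add_zero] at h3
    have h2 := Ge.sum (P := P) Finset.univ _ fun j _ => hterm j
    rw [← hrel' i0] at h2
    rcases h2 with h2 | h2
    · exact hz0 (pow_eq_zero_iff hE.ne' |>.1 h2)
    · rw [P.ord_pow] at h2
      omega
  have h1 := key i
  have h2 : y l ^ X.wt i * ζ i = z i := by
    simp only [hζ]
    field_simp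
  rw [← h2]
  have h3 : Ge P (X.wt i * pord P y) (y l ^ X.wt i) := (ge_pord P y l).pow (X.wt i)
  have h4 := h3.mul h1
  rwa [add_zero] at h4

/-- The heights of the coordinates `z i`. -/
theorem Pt.hgt_le [IsAlgClosed k] [CharZero k] {L : Type} [Field L] [Algebra k L] [IsFF k L]
    {y : Fin (n + 1) → L} {z : Fin r → L} (h : X.Pt y z) {l : Fin (n + 1)} (hl : y l ≠ 0)
    (i : Fin r) : hgt k (z i / y l ^ X.wt i) ≤ X.wt i * pht k y := by
  classical
  have hnn : 0 ≤ pht k y := Pool.Agent.W601.VF.pht_nonneg (Function.ne_iff.1 h.1)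
  by_cases hz : z i = 0
  · rw [hz, zero_div, hgt_algebraic (k := k) (K := L) (f := 0) isAlgebraic_zero]
    positivity
  set Y : Fin (n + 2) → L := Fin.cons (z i) fun j => y j ^ X.wt i with hY
  have hY0 : Y 0 = z i := by rw [hY, Fin.cons_zero]
  have hYs : ∀ j : Fin (n + 1), Y j.succ = y j ^ X.wt i := fun j => by rw [hY, Fin.cons_succ]
  have hYl : Y l.succ ≠ 0 := by
    rw [hYs]
    exact pow_ne_zero _ hl
  have hp : ∀ P : Place k L, pord P Y = X.wt i * pord P y := by
    intro P
    apply le_antisymm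
    · obtain ⟨j, hj, hjP⟩ := exists_pord P (Function.ne_iff.1 h.1)
      have h1 : Y j.succ ≠ 0 := by
        rw [hYs]
        exact pow_ne_zero _ hj
      have h2 := pord_le P h1
      rwa [hYs, P.ord_pow, hjP] at h2
    · obtain ⟨j, hj, hjP⟩ := exists_pord P (f := Y) ⟨l.succ, hYl⟩
      rw [← hjP]
      refine Fin.cases ?_ (fun j => ?_) j (motive := fun j => Y j ≠ 0 → _ ≤ P.ord (Y j)) hj
      · intro _
        rw [hY0]
        exact (h.ge P i).resolve_left hz
      · intro hj
        rw [hYs, P.ord_pow]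
        have hj' : y j ≠ 0 := by
          intro h0
          apply hj
          rw [hYs, h0, zero_pow (X.wt_pos i).ne']
        have := pord_le P hj'
        have h3 : (0 : ℤ) ≤ X.wt i := by positivity
        nlinarith
  have h1 : pht k Y = X.wt i * pht k y := by
    unfold pht
    rw [mul_neg, ← smul_eq_mul, smul_finsum]
    congr 1
    refine finsum_congr fun P => ?_
    rw [hp P, smul_eq_mul]
  have h2 := Pool.Agent.W603.CX.hgt_le_pht (k := k) Y (j := 0) (l := l.succ) (by rwa [hY0]) hYl
  rw [h1, hY0, hYs] at h2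
  exact h2

/-- **Pointed maps.** -/
theorem pointedFinite [IsAlgClosed k] [CharZero k] {B : ℕ} (hX : X.AlgHyp B) :
    X.PointedFinite := by
  classical
  intro L _ _ _ c a b l hab hal
  by_contra hinf
  rw [← Set.Infinite] at hinf
  set M := {f : (Fin (n + 1) → L) × (Fin r → L) | X.Pt f.1 f.2 ∧ f.1 l = 1 ∧
    (∀ j, HasVal c (f.1 j) (a j)) ∧ ∀ i, HasVal c (f.2 i) (b i)} with hM
  let z : ℕ ↪ M := hinf.natEmbedding M
  obtain ⟨T, hT⟩ : ∃ T : ℤ, T = (1 + ∑ i, (X.wt i : ℤ)) * (B * max (canDeg k L) 0) := ⟨_, rfl⟩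
  have hT0 : (0 : ℤ) ≤ B * max (canDeg k L) 0 := by positivity
  have hwt : ∀ i, (X.wt i : ℤ) ≤ 1 + ∑ i, (X.wt i : ℤ) := by
    intro i
    have := Finset.single_le_sum (f := fun i => (X.wt i : ℤ)) (fun _ _ => by positivity)
      (Finset.mem_univ i)
    linarith
  have hone : (1 : ℤ) ≤ 1 + ∑ i, (X.wt i : ℤ) := by
    have : (0 : ℤ) ≤ ∑ i, (X.wt i : ℤ) := Finset.sum_nonneg fun _ _ => by positivity
    linarith
  have hbound : ∀ f ∈ M, (∀ j, hgt k (f.1 j) ≤ T) ∧ ∀ i, hgt k (f.2 i) ≤ T := by
    rintro ⟨f, g⟩ ⟨hf, hfl, -, -⟩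
    simp only at hf hfl ⊢
    have h1 := hX L f g hf
    have h0 : f l ≠ 0 := by rw [hfl]; exact one_ne_zero
    constructor
    · intro j
      by_cases hj : f j = 0
      · rw [hj, hgt_algebraic (k := k) (K := L) (f := 0) isAlgebraic_zero, hT]
        positivity
      · have h2 := Pool.Agent.W603.CX.hgt_le_pht (k := k) f (j := j) (l := l) hj h0
        rw [hfl, div_one] at h2
        rw [hT]
        nlinarith
    · intro i
      have h2 := hf.hgt_le h0 i
      rw [hfl, one_pow, div_one] at h2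
      have h3 := hwt i
      have h4 : (0 : ℤ) ≤ X.wt i := by positivity
      rw [hT]
      nlinarith
  -- bend and break
  obtain ⟨G, ⟨j1, hj1⟩, hG1, -⟩ := Pool.Agent.TH152.BB.bb_val Pool.Agent.TH152.BB.bb_all c
    (fun m => (Sum.elim (z m : (Fin (n + 1) → L) × (Fin r → L)).1
      (z m : (Fin (n + 1) → L) × (Fin r → L)).2 : Fin (n + 1) ⊕ Fin r → L)) (Sum.elim a b) T
    (fun m m' hmm => z.injective (Subtype.ext (Prod.ext
      (funext fun j => congrFun hmm (Sum.inl j)) (funext fun i => congrFun hmm (Sum.inr i)))))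
    (fun m j => by
      rcases j with j | i
      · exact (z m).2.2.2.1 j
      · exact (z m).2.2.2.2 i)
    (fun m j => by
      rcases j with j | i
      · exact (hbound _ (z m).2).1 j
      · exact (hbound _ (z m).2).2 i)
  set y' : Fin (n + 1) → RatFunc k := fun j => G (Sum.inl j) with hy'
  set z' : Fin r → RatFunc k := fun i => G (Sum.inr i) with hz'
  have hG : Sum.elim y' z' = G := by
    funext s
    rcases s with s | s <;> rfl
  have hl : y' l = 1 := by
    have h1 := hG1 (MvPolynomial.X (Sum.inl l) - 1) (fun m => by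
      rw [map_sub, aeval_X, map_one, Sum.elim_inl, (z m).2.2.1, sub_self])
    rw [map_sub, aeval_X, map_one] at h1
    exact sub_eq_zero.1 h1
  have hpt : X.Pt y' z' := by
    refine ⟨fun h0 => ?_, fun t => ?_⟩
    · have := congrFun h0 l
      rw [hl] at this
      exact one_ne_zero this
    · rw [hG]
      exact hG1 _ fun m => (z m).2.1.2 t
  have hl0 : y' l ≠ 0 := by rw [hl]; exact one_ne_zero
  have h1 := hX (RatFunc k) y' z' hpt
  rw [Pool.Agent.Y216.canDeg_ratFunc] at h1
  have h1' : pht k y' ≤ 0 := by simpa using h1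
  apply hj1
  apply Pool.Agent.Y216.const_of_hgt
  rcases j1 with j | i
  · by_cases h0 : y' j = 0
    · change hgt k (y' j) ≤ 0
      rw [h0]
      exact (hgt_algebraic (k := k) (K := RatFunc k) (f := 0) isAlgebraic_zero).le
    · have h2 := Pool.Agent.W603.CX.hgt_le_pht (k := k) y' (j := j) (l := l) h0 hl0
      rw [hl, div_one] at h2
      exact h2.trans h1'
  · have h2 := hpt.hgt_le hl0 i
    rw [hl, one_pow, div_one] at h2
    have h3 : (0 : ℤ) ≤ X.wt i := by positivity
    exact h2.trans (mul_nonpos_of_nonneg_of_nonpos h3 h1')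

end FinCover

/-- General hypersurfaces over the complex numbers, with pointed maps. -/
theorem main_p {n d m N K q : ℕ} (hn : 1 ≤ n)
    (hd : 1 ≤ d) (hm : 2 ≤ m) (hN : N + 1 = (n + d).choose n) (hK : 2 * N * m ≤ K * (m - 1))
    (hq : (N + K).choose N < q) :
    ∃ Ψ : MvPolynomial (Fin q × Exps n d) ℂ, Ψ ≠ 0 ∧
      ∀ F : Fin q → MvPolynomial (Fin (n + 1)) ℂ, (∀ i, (F i).IsHomogeneous d) →
        eval (fun x => coeff x.2.1 (F x.1)) Ψ ≠ 0 →
          ∀ (r : ℕ) (X : FinCover ℂ n r),
            (X.Ramified F m d → X.Brody ∧ X.AllGeneralType ∧ X.PointedFinite) ∧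
            ∀ (κ : Type) (G : κ → MvPolynomial (Fin (n + 1) ⊕ Fin r) ℂ) (γ : κ → ℕ),
              X.RamifiedOff F m d G γ → X.BrodyOff G ∧ X.AllLogGeneralType G γ := by
  obtain ⟨d, rfl⟩ : ∃ d', d = d' + 1 := ⟨d - 1, by omega⟩
  have hNv : N = vd n (d + 1) := by
    have := vd_add n (d + 1)
    omega
  subst hNv
  obtain ⟨Ψ, h1, h2⟩ := generic_hyp ℂ (d := d) hn hm hK hq
  refine ⟨Ψ, h1, fun F hF hΨ r X => ?_⟩
  have hG := h2 F hΨ
  obtain ⟨B, hB⟩ := FinCover.algHyp hm hF hG
  exact ⟨fun hR => ⟨FinCover.brody hm hF hG hR, X.gt hm hF hG hR,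
    FinCover.pointedFinite ((hB r X).1 hR)⟩, fun κ G γ hR =>
    ⟨FinCover.brodyOff hm hF hG hR, X.lgt hm hF hG hR⟩⟩

end Pool.Agent.Q80.FH
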