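import Pool.Agent.Q80.FH.Flat

/-!
Points of projective space with high contact orders with general hypersurfaces.
-/

set_option autoImplicit false

namespace Pool.Agent.Q80.FH

open FF MvPolynomial Pool.Agent.W603.LV Pool.Agent.W603.PV Pool.Agent.W602.GT Pool.Agent.Y191

variable {k : Type} [Field k] {n q d : ℕ}

noncomputable instance (n d : ℕ) : Fintype (Exps n d) :=
  Fintype.ofEquiv (Mon (Fin (n + 1)) d)
    ⟨fun α => ⟨α.1, α.deg⟩, fun α => ⟨α.1, mem_mon α.2⟩, fun _ => rfl, fun _ => rfl⟩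

theorem card_exps (n d : ℕ) : Fintype.card (Exps n d) = (n + d).choose n := by
  classical
  have h1 : Fintype.card (Exps n d) = Fintype.card (Mon (Fin (n + 1)) d) :=
    Fintype.card_congr
      ⟨fun α => ⟨α.1, mem_mon α.2⟩, fun α => ⟨α.1, α.deg⟩, fun _ => rfl, fun _ => rfl⟩
  rw [h1, card_mon, Fintype.card_fin]
  have h2 : n + 1 + d - 1 = n + d := by omega
  rw [h2]
  exact (Nat.choose_symm_add (a := n) (b := d)).symm

/-- the dimension of the target of the Veronese embedding -/
def vd (n d : ℕ) : ℕ := (n + d).choose n - 1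

theorem vd_add (n d : ℕ) : vd n d + 1 = (n + d).choose n := by
  have : 0 < (n + d).choose n := Nat.choose_pos (by omega)
  unfold vd
  omega

/-- an enumeration of the monomials -/
noncomputable def en (n d : ℕ) : Fin (vd n d + 1) ≃ Exps n d :=
  (Fintype.equivFinOfCardEq (by rw [card_exps, vd_add])).symm

/-- the Veronese embedding -/
noncomputable def ver (d : ℕ) {M : Type} [Field M] (y : Fin (n + 1) → M) : Fin (vd n d + 1) → M :=
  fun t => ∏ j, y j ^ (en n d t).1 j

/-- the exponent of the power of a coordinate -/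
noncomputable def pex (n d : ℕ) (l j : Fin (n + 1)) : Exps n (d + 1) :=
  ⟨Finsupp.single l d + Finsupp.single j 1, by simp⟩

theorem ver_pex {M : Type} [Field M] (y : Fin (n + 1) → M) (l j : Fin (n + 1)) :
    ver (d + 1) y ((en n (d + 1)).symm (pex n d l j)) = y l ^ d * y j := by
  classical
  unfold ver pex
  rw [Equiv.apply_symm_apply]
  simp only [Finsupp.add_apply, pow_add, Finset.prod_mul_distrib, Finsupp.single_apply, pow_ite,
    pow_zero, pow_one]
  rw [Finset.prod_ite_eq, Finset.prod_ite_eq]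
  simp

variable {M : Type} [Field M] [Algebra k M]

theorem lf_ver {F : MvPolynomial (Fin (n + 1)) k} (hF : F.IsHomogeneous d) (y : Fin (n + 1) → M) :
    lf (fun t => coeff (en n d t).1 F) (ver d y) = aeval y F := by
  classical
  unfold lf ver
  rw [aeval_def, eval₂_eq']
  refine (Equiv.sum_comp (en n d) fun α : Exps n d => algebraMap k M (coeff α.1 F) *
    ∏ j, y j ^ α.1 j).trans ?_
  symm
  refine Finset.sum_bij_ne_zero (fun α _ hα => ⟨α, ?_⟩) (fun _ _ _ => Finset.mem_univ _) ?_ ?_ ?_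
  · have h2 : coeff α F ≠ 0 := by
      intro h0
      apply hα
      rw [h0, map_zero, zero_mul]
    have h3 := hF h2
    rw [Finsupp.weight_apply, Finsupp.sum_fintype _ _ (by simp)] at h3
    rw [Finsupp.degree_eq_sum]
    simpa using h3
  · intro α _ _ β _ _ h
    exact congrArg Subtype.val h
  · intro α _ hα
    refine ⟨α.1, ?_, hα, rfl⟩
    rw [mem_support_iff]
    intro h0
    apply hα
    rw [h0, map_zero, zero_mul]
  · intro α _ _
    rfl

theorem ver_ne {y : Fin (n + 1) → M} (hy : y ≠ 0) : ver (d + 1) y ≠ 0 := by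
  obtain ⟨l, hl⟩ := Function.ne_iff.1 hy
  intro h0
  have h1 := congrFun h0 ((en n (d + 1)).symm (pex n d l l))
  rw [ver_pex] at h1
  exact (mul_ne_zero (pow_ne_zero _ hl) hl) h1

theorem pord_ver (P : Place k M) {y : Fin (n + 1) → M} (hy : y ≠ 0) :
    pord P (ver (d + 1) y) = (d + 1 : ℕ) * pord P y := by
  classical
  apply le_antisymm
  · obtain ⟨l, hl, hlo⟩ := exists_pord P (Function.ne_iff.1 hy)
    have h1 := pord_le P (f := ver (d + 1) y) (j := (en n (d + 1)).symm (pex n d l l)) (by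
      rw [ver_pex]
      exact mul_ne_zero (pow_ne_zero _ hl) hl)
    rw [ver_pex, ← pow_succ, P.ord_pow, hlo] at h1
    exact h1
  · obtain ⟨t, ht, hto⟩ := exists_pord P (Function.ne_iff.1 (ver_ne (d := d) hy))
    rw [← hto]
    have h1 : Ge P ((d + 1 : ℕ) * pord P y) (ver (d + 1) y t) := by
      have h2 := Ge.prod (P := P) Finset.univ (fun j => y j ^ (en n (d + 1) t).1 j)
        (fun j => ((en n (d + 1) t).1 j : ℤ) * pord P y) fun j _ => (ge_pord P y j).pow _
      have h3 : ∑ j, ((en n (d + 1) t).1 j : ℤ) * pord P y = (d + 1 : ℕ) * pord P y := by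
        rw [← Finset.sum_mul, ← Nat.cast_sum, ← Finsupp.degree_eq_sum, (en n (d + 1) t).2]
      rw [h3] at h2
      exact h2
    exact h1.resolve_left ht

theorem multL_ver {m : ℕ} {F : Fin q → MvPolynomial (Fin (n + 1)) k}
    (hF : ∀ i, (F i).IsHomogeneous (d + 1)) {y : Fin (n + 1) → M} (hy : y ≠ 0) {P : Place k M}
    (h : MultAt m (d + 1) F y P) :
    MultL m (fun i t => coeff (en n (d + 1) t).1 (F i)) (ver (d + 1) y) P := by
  intro i h1 h2
  rw [lf_ver (hF i), pord_ver P hy] at *
  exact h i h1 h2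

theorem adjoin_ver {y : Fin (n + 1) → M}
    (halg : Algebra.IsAlgebraic
      (IntermediateField.adjoin k {f : M | ∃ i j, y j ≠ 0 ∧ f = y i / y j}) M) :
    Algebra.IsAlgebraic (IntermediateField.adjoin k
      {f : M | ∃ i j, ver (d + 1) y j ≠ 0 ∧ f = ver (d + 1) y i / ver (d + 1) y j}) M := by
  have hle : IntermediateField.adjoin k {f : M | ∃ i j, y j ≠ 0 ∧ f = y i / y j} ≤
      IntermediateField.adjoin k
        {f : M | ∃ i j, ver (d + 1) y j ≠ 0 ∧ f = ver (d + 1) y i / ver (d + 1) y j} := by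
    rw [IntermediateField.adjoin_le_iff]
    rintro _ ⟨i, j, hj, rfl⟩
    refine IntermediateField.subset_adjoin k _ ⟨(en n (d + 1)).symm (pex n d j i),
      (en n (d + 1)).symm (pex n d j j), ?_, ?_⟩
    · rw [ver_pex]
      exact mul_ne_zero (pow_ne_zero _ hj) hj
    · rw [ver_pex, ver_pex, mul_div_mul_left _ _ (pow_ne_zero _ hj)]
  let := (IntermediateField.inclusion hle).toAlgebra
  have : IsScalarTower
      (IntermediateField.adjoin k {f : M | ∃ i j, y j ≠ 0 ∧ f = y i / y j})
      (IntermediateField.adjoin k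
        {f : M | ∃ i j, ver (d + 1) y j ≠ 0 ∧ f = ver (d + 1) y i / ver (d + 1) y j}) M :=
    IsScalarTower.of_algebraMap_eq fun _ => rfl
  exact Algebra.IsAlgebraic.tower_top
    (K := IntermediateField.adjoin k {f : M | ∃ i j, y j ≠ 0 ∧ f = y i / y j}) _

/-- General hypersurfaces. -/
theorem generic_hyp (k : Type) [Field k] [Infinite k] {n d m K q : ℕ} (hn : 1 ≤ n) (hm : 2 ≤ m)
    (hK : 2 * vd n (d + 1) * m ≤ K * (m - 1)) (hq : (vd n (d + 1) + K).choose (vd n (d + 1)) < q) :
    ∃ Ψ : MvPolynomial (Fin q × Exps n (d + 1)) k, Ψ ≠ 0 ∧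
      ∀ F : Fin q → MvPolynomial (Fin (n + 1)) k,
        eval (fun x => coeff x.2.1 (F x.1)) Ψ ≠ 0 →
          Good m fun i (t : Fin (vd n (d + 1) + 1)) => coeff (en n (d + 1) t).1 (F i) := by
  have hv : 1 ≤ vd n (d + 1) := by
    have h1 : n + 1 ≤ (n + (d + 1)).choose n := by
      calc n + 1 = (n + 1).choose n := by simp
        _ ≤ _ := Nat.choose_le_choose _ (by omega)
    have := vd_add n (d + 1)
    omega
  obtain ⟨Ψ, h1, h2⟩ := generic_good (k := k) hm hv hK hq
  refine ⟨rename (fun x : Fin q × Fin (vd n (d + 1) + 1) => (x.1, en n (d + 1) x.2)) Ψ, ?_, ?_⟩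
  · intro h0
    apply h1
    refine rename_injective _ ?_ (h0.trans (map_zero _).symm)
    rintro ⟨a, b⟩ ⟨c, e⟩ h
    simp only [Prod.mk.injEq, EmbeddingLike.apply_eq_iff_eq] at h
    exact Prod.ext h.1 h.2
  · intro F hF
    rw [eval_rename] at hF
    exact h2 _ hF

end Pool.Agent.Q80.FH
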