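import Pool.Agent.Q80.FH.Cov
import Pool.Agent.W603.PV.Trunc

/-!
Projective schemes over a function field with a finite morphism to projective space which is ramified
over general constant hypersurfaces: the height inequality.
-/

set_option autoImplicit false

namespace Pool.Agent.Q80.FH

open FF MvPolynomial Pool.Agent.W603.LV Pool.Agent.W603.PV Pool.Agent.Y191

/-- A projective scheme `X` over the field `F` with a finite morphism to projective `n`-space over
`F`: the closed subscheme of the weighted projective space with the coordinates `y 0, …, y n` of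
weight `1` and `z 1, …, z r` of weights `wt i` which is defined by the weighted homogeneous polynomials
`eqs`. It is required that `X` has no points with `y = 0` over extensions of `F`. The finite morphism is
`(y : z) ↦ y`. -/
structure FinCoverF (F : Type) [Field F] (n r : ℕ) where
  /-- the index set of the equations -/
  ι : Type
  /-- the weights of the coordinates `z i` -/
  wt : Fin r → ℕ
  wt_pos : ∀ i, 0 < wt i
  /-- the equations -/
  eqs : ι → MvPolynomial (Fin (n + 1) ⊕ Fin r) F
  hom : ∀ t, ∃ d, (eqs t).IsWeightedHomogeneous (Sum.elim (fun _ => 1) wt) d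
  free : ∀ (M : Type) [Field M] [Algebra F M] (z : Fin r → M),
    (∀ t, aeval (Sum.elim 0 z) (eqs t) = 0) → z = 0

namespace FinCoverF

variable {k F : Type} [Field k] [Field F] [Algebra k F] {n r q : ℕ} (X : FinCoverF F n r)

/-- `(y : z)` is a point of `X` with coordinates in the extension `L` of `F`. -/
def Pt {L : Type} [Field L] [Algebra F L] (y : Fin (n + 1) → L) (z : Fin r → L) : Prop :=
  y ≠ 0 ∧ ∀ t, aeval (Sum.elim y z) (X.eqs t) = 0

/-- The places of `L` at which the point `(y : z)` meets the closed subscheme `D` of `X` defined by the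
weighted homogeneous polynomials `G t` of the degrees `γ t`: the orders of the values of all `G t` at
the point are greater than `γ t` times the minimal order of the coordinates `y j`. -/
def MeetsD (k : Type) {F : Type} [Field k] [Field F] {n r : ℕ} {κ : Type}
    (G : κ → MvPolynomial (Fin (n + 1) ⊕ Fin r) F) (γ : κ → ℕ) {L : Type} [Field L] [Algebra k L]
    [Algebra F L] (y : Fin (n + 1) → L) (z : Fin r → L) : Set (Place k L) :=
  {P | ∀ t, aeval (Sum.elim y z) (G t) ≠ 0 →
    γ t * pord P y < P.ord (aeval (Sum.elim y z) (G t))}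

/-- The morphism is ramified with the multiplicity at least `m` over the hypersurfaces `Φ i = 0` of
degree `d`, with coefficients in `k`, outside `D` and the places in `S`: for all points of `X` over
finite extensions `L` of `F` which are not in `D`, at all places of `L` which are not over `S` and at
which the point does not meet `D`, the contact orders with the pullbacks of the hypersurfaces are zero
or at least `m`. -/
def Ramified (Φ : Fin q → MvPolynomial (Fin (n + 1)) k) (m d : ℕ) (S : Finset (Place k F))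
    {κ : Type} (G : κ → MvPolynomial (Fin (n + 1) ⊕ Fin r) F) (γ : κ → ℕ) : Prop :=
  ∀ (L : Type) [Field L] [Algebra k L] [Algebra F L] [IsScalarTower k F L] [FiniteDimensional F L]
    (y : Fin (n + 1) → L) (z : Fin r → L), X.Pt y z → (∃ t, aeval (Sum.elim y z) (G t) ≠ 0) →
    ∀ P : Place k L, (∀ v ∈ S, ¬ Over P v) → P ∉ MeetsD k G γ y z → MultAt m d Φ y P

/-- Vojta's height inequality holds for all algebraic points of `X ∖ D`, with the constants `B`, `C`:
for all points of `X` over finite extensions `L` of `F` which are not in `D`, the height with respect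
to the pullback of the hyperplane class is at most `B * (2 g(L) - 2 + N) + C * [L : F]`, where `N` is
the number of the places of `L` at which the point meets `D`. -/
def VojtaOff (k : Type) {F : Type} [Field k] [Field F] [Algebra k F] {n r : ℕ}
    (X : FinCoverF F n r) {κ : Type} (G : κ → MvPolynomial (Fin (n + 1) ⊕ Fin r) F) (γ : κ → ℕ)
    (B C : ℕ) : Prop :=
  ∀ (L : Type) [Field L] [Algebra k L] [Algebra F L] [IsScalarTower k F L] [FiniteDimensional F L]
    (y : Fin (n + 1) → L) (z : Fin r → L), X.Pt y z → (∃ t, aeval (Sum.elim y z) (G t) ≠ 0) →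
    (MeetsD k G γ y z).Finite ∧
    pht k y ≤ B * (canDeg k L + (MeetsD k G γ y z).ncard) + C * Module.finrank F L

end FinCoverF

open FinCoverF

theorem vojta_all {k : Type} [Field k] [IsAlgClosed k] [CharZero k] {n m d q : ℕ} (hm : 2 ≤ m)
    {Φ : Fin q → MvPolynomial (Fin (n + 1)) k} (hF : ∀ i, (Φ i).IsHomogeneous (d + 1))
    (hG : Good m fun i (t : Fin (vd n (d + 1) + 1)) => coeff (en n (d + 1) t).1 (Φ i)) :
    ∃ B : ℕ, ∀ (F : Type) [Field F] [Algebra k F] [IsFF k F] (r : ℕ) (X : FinCoverF F n r)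
      (κ : Type) (G : κ → MvPolynomial (Fin (n + 1) ⊕ Fin r) F) (γ : κ → ℕ)
      (S : Finset (Place k F)), X.Ramified Φ m (d + 1) S G γ → ∃ C : ℕ, X.VojtaOff k G γ B C := by
  classical
  obtain ⟨B, hB⟩ := full_ht hm hG
  refine ⟨B, fun F _ _ _ r X κ G γ S hR => ?_⟩
  obtain ⟨C1, hC1⟩ := over_card (k := k) S
  obtain ⟨t, ht⟩ := IsFF.exists_transcendental (k := k) (K := F)
  obtain ⟨h0, hh0⟩ : ∃ h0 : ℕ, (h0 : ℤ) = hgt k t := ⟨(hgt k t).toNat,
    Int.toNat_of_nonneg (hgt_nonneg _)⟩
  refine ⟨B * (C1 + 2 * h0), fun L _ _ _ _ _ y z hX hGt => ?_⟩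
  have hL : IsFF k L := isFF_of_finite (F := F)
  obtain ⟨s, hs⟩ := hGt
  have hfin : (MeetsD k G γ y z).Finite := by
    obtain ⟨T, hT⟩ := exists_supp (k := k) (Finset.univ : Finset (Fin 1))
      ![aeval (Sum.elim y z) (G s)]
    have h1 := pord_finite (k := k) (Function.ne_iff.1 hX.1)
    refine ((Finset.finite_toSet T).union h1).subset fun P hP => ?_
    by_contra hcon
    rw [Set.mem_union, not_or] at hcon
    have h2 : P.ord (aeval (Sum.elim y z) (G s)) = 0 := by
      by_contra h3
      exact hcon.1 (hT 0 (Finset.mem_univ _) P h3)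
    have h3 : pord P y = 0 := by
      by_contra h4
      exact hcon.2 h4
    have h5 := hP s hs
    rw [h2, h3, mul_zero] at h5
    exact absurd h5 (lt_irrefl 0)
  refine ⟨hfin, ?_⟩
  obtain ⟨hO, hOc⟩ := hC1 L
  have h1 := hB L (hO.toFinset ∪ hfin.toFinset) (ver (d + 1) y) (ver_ne hX.1) fun P hP => by
    rw [Finset.mem_union, not_or, Set.Finite.mem_toFinset, Set.Finite.mem_toFinset] at hP
    refine multL_ver hF hX.1 (hR L y z hX ⟨s, hs⟩ P (fun v hv hov => hP.1 ⟨v, hv, hov⟩) hP.2)
  have h2 := (FinCover.pht_ver (d := d) hX.1).trans h1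
  have hcard : ((hO.toFinset ∪ hfin.toFinset).card : ℤ) ≤
      C1 * Module.finrank F L + (MeetsD k G γ y z).ncard := by
    have h3 := Finset.card_union_le hO.toFinset hfin.toFinset
    rw [← Set.ncard_eq_toFinset_card _ hO, ← Set.ncard_eq_toFinset_card _ hfin] at h3
    have h4 : ((hO.toFinset ∪ hfin.toFinset).card : ℤ) ≤
        (({P : Place k L | ∃ v ∈ S, Over P v}.ncard : ℕ) : ℤ) +
          ((MeetsD k G γ y z).ncard : ℕ) := by exact_mod_cast h3
    linarith
  have hcan := canDeg_ge (k := k) (K := L) (t := algebraMap F L t)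
    ((transcendental_algebraMap_iff (algebraMap F L).injective).2 ht)
  rw [hgt_algebraMap t, ← hh0] at hcan
  obtain ⟨M, hM⟩ : ∃ M : ℤ, M = Module.finrank F L := ⟨_, rfl⟩
  have hM0 : 0 ≤ M := by
    rw [hM]
    positivity
  obtain ⟨Nd, hNd⟩ : ∃ Nd : ℤ, Nd = (MeetsD k G γ y z).ncard := ⟨_, rfl⟩
  have hNd0 : 0 ≤ Nd := by
    rw [hNd]
    positivity
  rw [← hM] at hcan hcard ⊢
  rw [← hNd] at hcard ⊢
  have hmax : max (canDeg k L + ((hO.toFinset ∪ hfin.toFinset).card : ℤ)) 0 ≤
      canDeg k L + Nd + (C1 + 2 * h0) * M := by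
    have hC1M : 0 ≤ (C1 : ℤ) * M := by positivity
    apply max_le
    · have : (0 : ℤ) ≤ 2 * h0 * M := by positivity
      nlinarith
    · nlinarith
  calc pht k y ≤ B * max (canDeg k L + ((hO.toFinset ∪ hfin.toFinset).card : ℤ)) 0 := h2
    _ ≤ B * (canDeg k L + Nd + (C1 + 2 * h0) * M) :=
        mul_le_mul_of_nonneg_left hmax (by positivity)
    _ = B * (canDeg k L + Nd) + ((B * (C1 + 2 * h0) : ℕ) : ℤ) * M := by
        push_cast
        ring

/-- **The height inequality.** -/
theorem main_v (k : Type) [Field k] [IsAlgClosed k] [CharZero k] {n d m N K q : ℕ} (hn : 1 ≤ n)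
    (hd : 1 ≤ d) (hm : 2 ≤ m) (hN : N + 1 = (n + d).choose n) (hK : 2 * N * m ≤ K * (m - 1))
    (hq : (N + K).choose N < q) :
    ∃ Ψ : MvPolynomial (Fin q × Exps n d) k, Ψ ≠ 0 ∧
      ∀ Φ : Fin q → MvPolynomial (Fin (n + 1)) k, (∀ i, (Φ i).IsHomogeneous d) →
        eval (fun x => coeff x.2.1 (Φ x.1)) Ψ ≠ 0 →
          ∃ B : ℕ, ∀ (F : Type) [Field F] [Algebra k F] [IsFF k F] (r : ℕ) (X : FinCoverF F n r)
            (κ : Type) (G : κ → MvPolynomial (Fin (n + 1) ⊕ Fin r) F) (γ : κ → ℕ)
            (S : Finset (Place k F)), X.Ramified Φ m d S G γ → ∃ C : ℕ, X.VojtaOff k G γ B C := by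
  obtain ⟨d, rfl⟩ : ∃ d', d = d' + 1 := ⟨d - 1, by omega⟩
  have hNv : N = vd n (d + 1) := by
    have := vd_add n (d + 1)
    omega
  subst hNv
  obtain ⟨Ψ, h1, h2⟩ := generic_hyp k (d := d) hn hm hK hq
  exact ⟨Ψ, h1, fun Φ hF hΨ => vojta_all hm hF (h2 Φ hΨ)⟩

end Pool.Agent.Q80.FH
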